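import Pool.Agent.Lib.MP_b27257_nt.BT.Defs
import Pool.Agent.Lib.MP_28dc30_nt.App_liouville

/-! Row bt-B01: Ridout. -/

namespace Pool.Agent.Lib.MP_b27257_nt.BT

open Finset

/-- The denominator of `x / y`. -/
theorem b01_den (x y w : ℤ) (hy : y ≠ 0) (hw : w ≠ 0) (hxy : x - y = w) :
    |(y : ℝ)| ≤ |(w : ℝ)| * (((x : ℚ) / (y : ℚ)).den : ℝ) := by
  have hyQ : (y : ℚ) ≠ 0 := by exact_mod_cast hy
  -- `x / y = a / d` in lowest terms, so `y = d * g`, `x = a * g`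
  set ρ : ℚ := (x : ℚ) / (y : ℚ) with hρ
  have hd0 : (ρ.den : ℤ) ≠ 0 := by exact_mod_cast ρ.den_nz
  have h1 : x * (ρ.den : ℤ) = ρ.num * y := by
    have h2 : (x : ℚ) / (y : ℚ) = (ρ.num : ℚ) / (ρ.den : ℚ) := by
      rw [← hρ]; exact (Rat.num_div_den ρ).symm
    have hdQ : (ρ.den : ℚ) ≠ 0 := by exact_mod_cast ρ.den_nz
    rw [div_eq_div_iff hyQ hdQ] at h2
    exact_mod_cast h2
  have hcop : IsCoprime (ρ.den : ℤ) ρ.num := by
    rw [Int.isCoprime_iff_gcd_eq_one, Int.gcd_comm]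
    exact ρ.reduced
  have hdvd : (ρ.den : ℤ) ∣ y := by
    apply hcop.dvd_of_dvd_mul_left
    exact ⟨x, by rw [← h1]; ring⟩
  obtain ⟨g, hg⟩ := hdvd
  have hx : x = ρ.num * g := by
    have h3 : x * (ρ.den : ℤ) = (ρ.num * g) * (ρ.den : ℤ) := by
      rw [h1, hg]; ring
    exact mul_right_cancel₀ hd0 h3
  have hgw : g ∣ w := by
    rw [← hxy, hx, hg]
    exact ⟨ρ.num - ρ.den, by ring⟩
  have hgle : |(g : ℝ)| ≤ |(w : ℝ)| := by
    have h4 : |g| ≤ |w| := by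
      have := Int.le_of_dvd (abs_pos.2 hw) ((abs_dvd_abs g w).2 hgw)
      exact this
    exact_mod_cast h4
  have hy2 : (y : ℝ) = (ρ.den : ℝ) * (g : ℝ) := by
    have : ((y : ℤ) : ℝ) = (((ρ.den : ℤ) * g : ℤ) : ℝ) := by rw [hg]
    rw [this]; push_cast; ring
  rw [hy2, abs_mul, Nat.abs_cast, mul_comm]
  exact mul_le_mul_of_nonneg_right hgle (by positivity)

theorem b01_pf {n : ℕ} (hn : n ≠ 0) (k : ℕ) : (n ^ k).primeFactors ⊆ n.primeFactors := by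
  intro x hx
  have h1 := Nat.prime_of_mem_primeFactors hx
  have h2 := Nat.dvd_of_mem_primeFactors hx
  exact Nat.mem_primeFactors.2 ⟨h1, h1.dvd_of_dvd_pow h2, hn⟩

theorem b01_pow_le {p : ℕ} (hp : 1 < p) {C : ℝ} {i h : ℕ} (hi : (i : ℝ) ≤ C * h) :
    (p : ℝ) ^ i ≤ Real.exp (|C| * Real.log p * h) := by
  have hp0 : (0 : ℝ) < p := by exact_mod_cast (by omega : 0 < p)
  have hl : 0 ≤ Real.log (p : ℝ) := Real.log_nonneg (by exact_mod_cast hp.le)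
  rw [← Real.log_le_iff_le_exp (by positivity), Real.log_pow]
  have h1 : (i : ℝ) ≤ |C| * h := hi.trans (mul_le_mul_of_nonneg_right (le_abs_self _) (by positivity))
  calc (i : ℝ) * Real.log p ≤ (|C| * h) * Real.log p := mul_le_mul_of_nonneg_right h1 hl
    _ = |C| * Real.log p * h := by ring

/-- **Ridout's theorem for `p^i z ≡ w` modulo `q^r`.** By contradiction: otherwise the set `T` of the `h` with a
counterexample is infinite; choose `i, r, w, z` for every `h ∈ T` and apply `SB.hyperplane_lemma'` with `n = 0`,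
`K = ⊥`, `N = !![1, -1; 1, 0]`, `N' = !![0, 1; -1, 1]`, `S = p.primeFactors ∪ q.primeFactors`, point
`u = ![x, y]`, `x = p^i z`, `y = x - w` (`q^r ∣ y`, `y ≠ 0`), `B = ![|w|, |x|]`, `E = ![p^i, q^r]`, `V = ![y, -x]`,
`ε = ε`, `c = ε`. `∏ B exp(ε h) = |w| p^i |z| exp(ε h) ≤ p^i q^r`; `den(x/y) ≥ |y|/gcd(x, y) ≥ |y|/|w| ≥
q^r/|w| ≥ exp(ε h)` since `gcd(x, y) ∣ w` and `|y| ≥ q^r`. Bounds: `1 ≤ |w|, |x|`; `|x| ≤ p^i q^r`,
`p^i = exp(i log p) ≤ exp(C' h)`. -/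
theorem ridout_pq (p q : ℕ) (hp : 1 < p) (hq : 1 < q) (C ε : ℝ) (hε : 0 < ε) : ∃ h0 : ℕ, ∀ h : ℕ, h0 ≤ h →
    ∀ i r : ℕ, (i : ℝ) ≤ C * h → (r : ℝ) ≤ C * h → ∀ w z : ℤ, w ≠ 0 → z ≠ 0 →
      ((q : ℤ) ^ r) ∣ (p : ℤ) ^ i * z - w → (p : ℤ) ^ i * z ≠ w →
      |(w : ℝ)| * |(z : ℝ)| * Real.exp (ε * h) ≤ (q : ℝ) ^ r →
      |(w : ℝ)| * Real.exp (ε * h) ≤ (q : ℝ) ^ r → False := by
  by_contra hcon
  have hcon' : ∀ h0 : ℕ, ∃ h : ℕ, h0 ≤ h ∧ ∃ (i r : ℕ) (w z : ℤ), (i : ℝ) ≤ C * h ∧ (r : ℝ) ≤ C * h ∧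
      w ≠ 0 ∧ z ≠ 0 ∧ ((q : ℤ) ^ r) ∣ (p : ℤ) ^ i * z - w ∧ (p : ℤ) ^ i * z ≠ w ∧
      |(w : ℝ)| * |(z : ℝ)| * Real.exp (ε * h) ≤ (q : ℝ) ^ r ∧
      |(w : ℝ)| * Real.exp (ε * h) ≤ (q : ℝ) ^ r := by
    intro h0
    by_contra hc
    apply hcon
    refine ⟨h0, fun h hh i r h1 h2 w z h3 h4 h5 h6 h7 h8 => hc ⟨h, hh, i, r, w, z, h1, h2, h3, h4, h5, h6, h7, h8⟩⟩
  set T : Set ℕ := {h | ∃ (i r : ℕ) (w z : ℤ), (i : ℝ) ≤ C * h ∧ (r : ℝ) ≤ C * h ∧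
      w ≠ 0 ∧ z ≠ 0 ∧ ((q : ℤ) ^ r) ∣ (p : ℤ) ^ i * z - w ∧ (p : ℤ) ^ i * z ≠ w ∧
      |(w : ℝ)| * |(z : ℝ)| * Real.exp (ε * h) ≤ (q : ℝ) ^ r ∧
      |(w : ℝ)| * Real.exp (ε * h) ≤ (q : ℝ) ^ r} with hT
  have hTinf : T.Infinite := by
    apply Set.infinite_of_forall_exists_gt
    intro a
    obtain ⟨h, hh, hP⟩ := hcon' (a + 1)
    exact ⟨h, hP, by omega⟩
  have hch : ∀ h : ℕ, ∃ (i r : ℕ) (w z : ℤ), h ∈ T → ((i : ℝ) ≤ C * h ∧ (r : ℝ) ≤ C * h ∧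
      w ≠ 0 ∧ z ≠ 0 ∧ ((q : ℤ) ^ r) ∣ (p : ℤ) ^ i * z - w ∧ (p : ℤ) ^ i * z ≠ w ∧
      |(w : ℝ)| * |(z : ℝ)| * Real.exp (ε * h) ≤ (q : ℝ) ^ r ∧
      |(w : ℝ)| * Real.exp (ε * h) ≤ (q : ℝ) ^ r) := by
    intro h
    by_cases hh : h ∈ T
    · obtain ⟨i, r, w, z, hP⟩ := hh
      exact ⟨i, r, w, z, fun _ => hP⟩
    · exact ⟨0, 0, 0, 0, fun h' => absurd h' hh⟩
  choose i r w z hP using hch
  have hp0 : (0 : ℝ) < p := by exact_mod_cast (by omega : 0 < p)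
  have hq0 : (0 : ℝ) < q := by exact_mod_cast (by omega : 0 < q)
  have hlp : 0 ≤ Real.log (p : ℝ) := Real.log_nonneg (by exact_mod_cast hp.le)
  have hlq : 0 ≤ Real.log (q : ℝ) := Real.log_nonneg (by exact_mod_cast hq.le)
  set C₀ : ℝ := |C| * Real.log p + |C| * Real.log q with hC₀
  have hC₀0 : 0 ≤ C₀ := by positivity
  -- basic bounds
  have hW : ∀ h ∈ T, (1 : ℝ) ≤ |(w h : ℝ)| := fun h hh => by
    have := Int.one_le_abs (hP h hh).2.2.1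
    exact_mod_cast this
  have hZ : ∀ h ∈ T, (1 : ℝ) ≤ |(z h : ℝ)| := fun h hh => by
    have := Int.one_le_abs (hP h hh).2.2.2.1
    exact_mod_cast this
  have hE1 : ∀ h : ℕ, (1 : ℝ) ≤ Real.exp (ε * h) := fun h => Real.one_le_exp (by positivity)
  have hPi : ∀ h ∈ T, (p : ℝ) ^ i h ≤ Real.exp (|C| * Real.log p * h) := fun h hh => b01_pow_le hp (hP h hh).1
  have hQr : ∀ h ∈ T, (q : ℝ) ^ r h ≤ Real.exp (|C| * Real.log q * h) := fun h hh => b01_pow_le hq (hP h hh).2.1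
  have hexp1 : ∀ h : ℕ, Real.exp (|C| * Real.log p * h) ≤ Real.exp (C₀ * h) := fun h => by
    apply Real.exp_le_exp.2
    apply mul_le_mul_of_nonneg_right _ (by positivity)
    rw [hC₀]; nlinarith [abs_nonneg C]
  have hexp2 : ∀ h : ℕ, Real.exp (|C| * Real.log q * h) ≤ Real.exp (C₀ * h) := fun h => by
    apply Real.exp_le_exp.2
    apply mul_le_mul_of_nonneg_right _ (by positivity)
    rw [hC₀]; nlinarith [abs_nonneg C]
  have hexp3 : ∀ h : ℕ, Real.exp (|C| * Real.log p * h) * Real.exp (|C| * Real.log q * h) = Real.exp (C₀ * h) :=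
    fun h => by rw [← Real.exp_add]; congr 1; rw [hC₀]; ring
  have hexpn : ∀ h : ℕ, Real.exp (-(C₀ * h)) ≤ 1 := fun h => by
    rw [Real.exp_le_one_iff]
    have : 0 ≤ C₀ * (h : ℝ) := by positivity
    linarith
  have hxabs : ∀ h, |(((p : ℤ) ^ i h * z h : ℤ) : ℝ)| = (p : ℝ) ^ i h * |(z h : ℝ)| := fun h => by
    push_cast
    rw [abs_mul, abs_pow, Nat.abs_cast]
  have hp1 : ∀ h, (1 : ℝ) ≤ (p : ℝ) ^ i h := fun h => one_le_pow₀ (by exact_mod_cast hp.le)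
  have hwle : ∀ h ∈ T, |(w h : ℝ)| ≤ (q : ℝ) ^ r h := fun h hh => by
    have h1 := (hP h hh).2.2.2.2.2.2.2
    refine le_trans ?_ h1
    exact le_mul_of_one_le_right (abs_nonneg _) (hE1 h)
  have hzle : ∀ h ∈ T, |(z h : ℝ)| ≤ (q : ℝ) ^ r h := fun h hh => by
    have h1 := (hP h hh).2.2.2.2.2.2.1
    refine le_trans ?_ h1
    have h2 : |(z h : ℝ)| ≤ |(w h : ℝ)| * |(z h : ℝ)| := le_mul_of_one_le_left (abs_nonneg _) (hW h hh)
    exact h2.trans (le_mul_of_one_le_right (by positivity) (hE1 h))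
  refine SB.hyperplane_lemma' (n := 0) (⊥ : IntermediateField ℚ ℝ) !![1, -1; 1, 0] !![0, 1; -1, 1] ?_ ?_
    (p.primeFactors ∪ q.primeFactors) ?_ C₀ ε ε hε hε T hTinf
    (fun h _ => ![(p : ℤ) ^ i h * z h, (p : ℤ) ^ i h * z h - w h])
    (fun h => ![(p : ℤ) ^ i h * z h - w h, -((p : ℤ) ^ i h * z h)])
    (fun h => ![|(w h : ℝ)|, |(((p : ℤ) ^ i h * z h : ℤ) : ℝ)|])
    (fun h => ![p ^ i h, q ^ r h]) ?_ ?_ ?_ ?_ ?_ ?_ ?_ ?_ ?_ ?_
  · ext a b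
    fin_cases a <;> fin_cases b <;> simp [Matrix.mul_apply, Fin.sum_univ_two]
  · intro a b
    fin_cases a <;> fin_cases b
    · exact zero_mem _
    · exact one_mem _
    · exact neg_mem (one_mem _)
    · exact one_mem _
  · intro a ha
    rw [Finset.mem_union] at ha
    rcases ha with ha | ha
    · exact Nat.prime_of_mem_primeFactors ha
    · exact Nat.prime_of_mem_primeFactors ha
  · -- hu
    intro h hh j a
    fin_cases a
    · simp [Fin.sum_univ_two]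
    · simp [Fin.sum_univ_two]
  · -- hdiv
    intro h hh j a
    fin_cases a
    · simp
    · simpa using (hP h hh).2.2.2.2.1
  · -- hB
    intro h hh a
    fin_cases a
    · constructor
      · exact (hexpn h).trans (hW h hh)
      · exact (hwle h hh).trans ((hQr h hh).trans (hexp2 h))
    · constructor
      · show _ ≤ |(((p : ℤ) ^ i h * z h : ℤ) : ℝ)|
        rw [hxabs]
        refine (hexpn h).trans ?_
        calc (1 : ℝ) = 1 * 1 := by ring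
          _ ≤ (p : ℝ) ^ i h * |(z h : ℝ)| := mul_le_mul (hp1 h) (hZ h hh) (by norm_num) (by positivity)
      · show |(((p : ℤ) ^ i h * z h : ℤ) : ℝ)| ≤ _
        rw [hxabs, ← hexp3]
        exact mul_le_mul (hPi h hh) ((hzle h hh).trans (hQr h hh)) (abs_nonneg _) (Real.exp_pos _).le
  · -- hE0
    intro h hh a
    fin_cases a
    · exact pow_ne_zero _ (by omega)
    · exact pow_ne_zero _ (by omega)
  · -- hES
    intro h hh a
    fin_cases a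
    · exact (b01_pf (by omega) (i h)).trans Finset.subset_union_left
    · exact (b01_pf (by omega) (r h)).trans Finset.subset_union_right
  · -- hE
    intro h hh a
    fin_cases a
    · simpa using (hPi h hh).trans (hexp1 h)
    · simpa using (hQr h hh).trans (hexp2 h)
  · -- hprod
    intro h hh
    rw [Fin.prod_univ_two, Fin.prod_univ_two]
    show |(w h : ℝ)| * |(((p : ℤ) ^ i h * z h : ℤ) : ℝ)| * Real.exp (ε * h) ≤ ((p ^ i h : ℕ) : ℝ) * ((q ^ r h : ℕ) : ℝ)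
    rw [hxabs]
    push_cast
    have h1 := (hP h hh).2.2.2.2.2.2.1
    calc |(w h : ℝ)| * ((p : ℝ) ^ i h * |(z h : ℝ)|) * Real.exp (ε * h)
        = (p : ℝ) ^ i h * (|(w h : ℝ)| * |(z h : ℝ)| * Real.exp (ε * h)) := by ring
      _ ≤ (p : ℝ) ^ i h * (q : ℝ) ^ r h := mul_le_mul_of_nonneg_left h1 (by positivity)
  · -- hV0
    intro h hh
    exact sub_ne_zero.2 (hP h hh).2.2.2.2.2.1
  · -- hspan
    intro h hh v hv
    rw [Fin.sum_univ_two] at hv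
    have hy0 : (((p : ℤ) ^ i h * z h - w h : ℤ) : ℚ) ≠ 0 := by
      exact_mod_cast sub_ne_zero.2 (hP h hh).2.2.2.2.2.1
    have hv' : (((p : ℤ) ^ i h * z h - w h : ℤ) : ℚ) * v 0 + ((-((p : ℤ) ^ i h * z h) : ℤ) : ℚ) * v 1 = 0 := hv
    have : v = (v 1 / (((p : ℤ) ^ i h * z h - w h : ℤ) : ℚ)) •
        (fun a : Fin 2 => (((![(p : ℤ) ^ i h * z h, (p : ℤ) ^ i h * z h - w h] : Fin 2 → ℤ) a : ℤ) : ℚ)) := by
      ext a
      fin_cases a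
      · show v 0 = (v 1 / (((p : ℤ) ^ i h * z h - w h : ℤ) : ℚ)) * (((p : ℤ) ^ i h * z h : ℤ) : ℚ)
        rw [div_mul_eq_mul_div, eq_div_iff hy0]
        push_cast at hv' ⊢
        linear_combination hv'
      · show v 1 = (v 1 / (((p : ℤ) ^ i h * z h - w h : ℤ) : ℚ)) * (((p : ℤ) ^ i h * z h - w h : ℤ) : ℚ)
        rw [div_mul_cancel₀ _ hy0]
    rw [this]
    apply Submodule.smul_mem
    apply Submodule.subset_span
    exact ⟨0, rfl⟩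
  · -- hden
    intro h hh
    have hy0 : (p : ℤ) ^ i h * z h - w h ≠ 0 := sub_ne_zero.2 (hP h hh).2.2.2.2.2.1
    have h1 := b01_den ((p : ℤ) ^ i h * z h) ((p : ℤ) ^ i h * z h - w h) (w h) hy0 (hP h hh).2.2.1 (by ring)
    have h2 : (q : ℝ) ^ r h ≤ |(((p : ℤ) ^ i h * z h - w h : ℤ) : ℝ)| := by
      have h3 : ((q : ℤ) ^ r h) ≤ |(p : ℤ) ^ i h * z h - w h| :=
        Int.le_of_dvd (abs_pos.2 hy0) ((dvd_abs _ _).2 (hP h hh).2.2.2.2.1)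
      exact_mod_cast h3
    have h4 := (hP h hh).2.2.2.2.2.2.2
    have h5 : |(w h : ℝ)| * Real.exp (ε * h) ≤
        |(w h : ℝ)| * (((((p : ℤ) ^ i h * z h : ℤ) : ℚ) / (((p : ℤ) ^ i h * z h - w h : ℤ) : ℚ)).den : ℝ) :=
      h4.trans (h2.trans h1)
    have h6 : 0 < |(w h : ℝ)| := lt_of_lt_of_le one_pos (hW h hh)
    have h7 := le_of_mul_le_mul_left h5 h6
    have h8 : (-((-((p : ℤ) ^ i h * z h) : ℤ) : ℚ) / (((p : ℤ) ^ i h * z h - w h : ℤ) : ℚ)) =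
        (((p : ℤ) ^ i h * z h : ℤ) : ℚ) / (((p : ℤ) ^ i h * z h - w h : ℤ) : ℚ) := by
      congr 1
      push_cast
      ring
    show Real.exp (ε * h) ≤ ((-((-((p : ℤ) ^ i h * z h) : ℤ) : ℚ) / (((p : ℤ) ^ i h * z h - w h : ℤ) : ℚ)).den : ℝ)
    rw [h8]
    exact h7

end Pool.Agent.Lib.MP_b27257_nt.BT
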