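import Pool.Agent.Lib.MP_b27257_nt.BT.Defs

/-! Row bt-B02: sites. -/

namespace Pool.Agent.Lib.MP_b27257_nt.BT

open Finset

theorem b02_eq {x y : ℝ} {n : ℤ} (h : x - y = n) : (x : UnitAddCircle) = (y : UnitAddCircle) := by
  have h1 : ((x - y : ℝ) : UnitAddCircle) = 0 := by
    rw [h]
    exact (AddCircle.coe_eq_zero_iff (1 : ℝ)).mpr ⟨n, by simp⟩
  rw [AddCircle.coe_sub, sub_eq_zero] at h1
  exact h1

theorem b02_nsmul (n : ℕ) (x : ℝ) : n • (x : UnitAddCircle) = ((n * x : ℝ) : UnitAddCircle) := by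
  rw [← AddCircle.coe_nsmul, nsmul_eq_mul]

theorem b02_zsmul (n : ℤ) (x : ℝ) : n • (x : UnitAddCircle) = ((n * x : ℝ) : UnitAddCircle) := by
  rw [← AddCircle.coe_zsmul, zsmul_eq_mul]

/-- `p P^(i+1) = P^i + P^i (p P - 1)`, and `q^r ∣ p P - 1`. -/
theorem st_p {P : ℤ} {p q m : ℕ} (hq : 0 < q) (hP : P * p ≡ 1 [ZMOD (q : ℤ) ^ m]) {i r : ℕ} (hr : r ≤ m) :
    p • st P q (i + 1) r = st P q i r := by
  have hq0 : (q : ℝ) ≠ 0 := by exact_mod_cast hq.ne'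
  have hdvd : (q : ℤ) ^ r ∣ P * p - 1 := (pow_dvd_pow _ hr).trans (Int.modEq_iff_dvd.mp hP.symm)
  obtain ⟨c, hc⟩ := hdvd
  have hc' : (P : ℝ) * p - 1 = (q : ℝ) ^ r * c := by exact_mod_cast hc
  rw [st, st, b02_nsmul]
  refine b02_eq (n := P ^ i * c) ?_
  push_cast
  have h1 : (q : ℝ) ^ r ≠ 0 := pow_ne_zero _ hq0
  field_simp
  linear_combination (P : ℝ) ^ i * hc'

theorem st_q_pow {P : ℤ} {q : ℕ} (hq : 0 < q) (i r n : ℕ) : q ^ n • st P q i (r + n) = st P q i r := by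
  have hq0 : (q : ℝ) ≠ 0 := by exact_mod_cast hq.ne'
  have h1 : (q : ℝ) ^ r ≠ 0 := pow_ne_zero _ hq0
  have h2 : (q : ℝ) ^ n ≠ 0 := pow_ne_zero _ hq0
  rw [st, st, b02_nsmul]
  congr 1
  push_cast
  rw [pow_add]
  field_simp

/-- The norm in `UnitAddCircle` of `w • st P q i r` comes from an integer `z ≡ w P^i` modulo `q^r`; it satisfies
`p^i z ≡ w` modulo `q^r` (`UnitAddCircle.norm_eq`: `‖x‖ = |x - round x|`). -/
theorem exists_z {P : ℤ} {p q m : ℕ} (hq : 0 < q) (hP : P * p ≡ 1 [ZMOD (q : ℤ) ^ m]) {i r : ℕ} (hr : r ≤ m)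
    (w : ℤ) : ∃ z : ℤ, ((q : ℤ) ^ r) ∣ (p : ℤ) ^ i * z - w ∧ |(z : ℝ)| = ‖w • st P q i r‖ * (q : ℝ) ^ r := by
  have hq0 : (0 : ℝ) < q := by exact_mod_cast hq
  have h1 : (0 : ℝ) < (q : ℝ) ^ r := pow_pos hq0 _
  have hP1 : (P * p) ^ i ≡ 1 [ZMOD (q : ℤ) ^ m] := by simpa using hP.pow i
  have hdvd : (q : ℤ) ^ r ∣ (P * p) ^ i - 1 := (pow_dvd_pow _ hr).trans (Int.modEq_iff_dvd.mp hP1.symm)
  obtain ⟨c, hc⟩ := hdvd
  set n : ℤ := round ((w : ℝ) * ((P : ℝ) ^ i / (q : ℝ) ^ r)) with hn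
  refine ⟨w * P ^ i - n * (q : ℤ) ^ r, ⟨w * c - (p : ℤ) ^ i * n, ?_⟩, ?_⟩
  · rw [mul_pow] at hc
    linear_combination w * hc
  · rw [st, b02_zsmul, UnitAddCircle.norm_eq, ← hn, ← abs_of_pos h1, ← abs_mul, abs_of_pos h1]
    congr 1
    push_cast
    field_simp

end Pool.Agent.Lib.MP_b27257_nt.BT
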