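import Pool.Agent.Lib.MP_b27257_nt.BT.Defs

/-! Row bt-B03: the triangle step. -/

namespace Pool.Agent.Lib.MP_b27257_nt.BT

open Finset

/-- Lift `Y` to `y : ℝ`; `p y = ξ + k`, `k = round (p y)`, `|ξ| = ‖p • Y‖ ≤ δ`. If `p ∣ k` then `Y` is the class of
`ξ / p`. Otherwise `n y = n ξ / p + n k / p`, and `n k / p` has distance `≥ 1/p` from the integers, so
`‖n • Y‖ ≥ 1/p - n δ / p > η`. -/
theorem tri_step {p n : ℕ} (hp : 0 < p) (hpn : Nat.Coprime p n) (Y : UnitAddCircle) {δ η : ℝ}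
    (h1 : ‖p • Y‖ ≤ δ) (h2 : ‖n • Y‖ ≤ η) (h : n * δ / p + η < 1 / p) : ‖Y‖ ≤ δ / p := by
  obtain ⟨y, rfl⟩ := QuotientAddGroup.mk_surjective Y
  have hp' : (0 : ℝ) < p := Nat.cast_pos.2 hp
  have e1 : ∀ m : ℕ, m • ((QuotientAddGroup.mk y : UnitAddCircle)) =
      (((m : ℝ) * y : ℝ) : UnitAddCircle) := by
    intro m
    rw [← nsmul_eq_mul]
    rfl
  rw [e1, UnitAddCircle.norm_eq] at h1 h2
  show ‖((y : ℝ) : UnitAddCircle)‖ ≤ δ / p
  rw [UnitAddCircle.norm_eq]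
  by_cases hk : (p : ℤ) ∣ round ((p : ℝ) * y)
  · obtain ⟨k, hk⟩ := hk
    refine (round_le y k).trans ?_
    rw [le_div_iff₀ hp', ← abs_of_pos hp', ← abs_mul]
    rw [hk] at h1
    have e2 : (y - k) * (p : ℝ) = p * y - ((p * k : ℤ) : ℝ) := by
      push_cast
      ring
    rw [e2]
    exact h1
  · exfalso
    obtain ⟨M, hM⟩ : ∃ M, M = round ((n : ℝ) * y) := ⟨_, rfl⟩
    obtain ⟨k, hk'⟩ : ∃ k, k = round ((p : ℝ) * y) := ⟨_, rfl⟩
    rw [← hk'] at hk h1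
    rw [← hM] at h2
    have h3 : (n : ℤ) * k - M * p ≠ 0 := by
      intro h0
      apply hk
      have h4 : (p : ℤ) ∣ n * k := ⟨M, by linarith⟩
      exact (Int.isCoprime_iff_gcd_eq_one.2 (by
        rw [Int.gcd_natCast_natCast]
        exact hpn)).dvd_of_dvd_mul_left h4
    have h5 : (1 : ℝ) ≤ |(n : ℝ) * k - M * p| := by
      have h6 := Int.one_le_abs h3
      exact_mod_cast h6
    have e3 : (n : ℝ) * k - M * p = p * (n * y - M) - n * (p * y - k) := by ring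
    rw [e3] at h5
    have h7 : |(p : ℝ) * (n * y - M) - n * (p * y - k)| ≤ p * η + n * δ := by
      refine (abs_sub _ _).trans ?_
      rw [abs_mul, abs_mul, abs_of_pos hp', abs_of_nonneg (Nat.cast_nonneg (α := ℝ) n)]
      exact add_le_add (mul_le_mul_of_nonneg_left h2 hp'.le)
        (mul_le_mul_of_nonneg_left h1 (Nat.cast_nonneg n))
    have h8 : (n * δ / p + η) * p < 1 / p * p := mul_lt_mul_of_pos_right h hp'
    rw [one_div_mul_cancel hp'.ne', add_mul, div_mul_cancel₀ _ hp'.ne'] at h8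
    linarith

end Pool.Agent.Lib.MP_b27257_nt.BT
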