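import Pool.Agent.Lib.MP_b27257_nt.BT.B02
import Pool.Agent.Lib.MP_b27257_nt.BT.B03

/-! Row bt-B04: the triangle lemma. -/

namespace Pool.Agent.Lib.MP_b27257_nt.BT

open Finset

/-- Induction on `ℓ`. `ℓ = 1` is the hypothesis for `j = 0`. Step: `Y = w • st P q (t + ℓ + 1) (m - t)`,
`p • Y = w • st P q (t + ℓ) (m - t)` (`st_p`), `q^ℓ • Y = w • st P q (t + ℓ + 1) (m - (t + ℓ))` (`st_q_pow`), and
`tri_step` with `δ = η / p^(ℓ-1)`, `n = q^ℓ`: `q^ℓ δ / p + η ≤ 2 η < 1/p`. -/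
theorem tri {P : ℤ} {p q m : ℕ} (hq : 0 < q) (hqp : q < p) (hpq : Nat.Coprime p q)
    (hP : P * p ≡ 1 [ZMOD (q : ℤ) ^ m]) {η : ℝ} (hη0 : 0 ≤ η) (hη : 2 * η < 1 / p) (w : ℤ) (t : ℕ) :
    ∀ ℓ : ℕ, 1 ≤ ℓ → t + ℓ ≤ m → (∀ j < ℓ, ‖w • st P q (t + j + 1) (m - (t + j))‖ ≤ η) →
      ‖w • st P q (t + ℓ) (m - t)‖ ≤ η / p ^ (ℓ - 1) := by
  have hp : 0 < p := by omega
  have hpR : (0 : ℝ) < p := by exact_mod_cast hp
  intro ℓ hℓ
  induction ℓ, hℓ using Nat.le_induction with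
  | base =>
    intro _ h
    have h1 := h 0 (by omega)
    rw [Nat.sub_self, pow_zero, div_one]
    exact h1
  | succ ℓ hℓ ih =>
    intro hm h
    have h1 := ih (by omega) (fun j hj => h j (by omega))
    have e1 : p • (w • st P q (t + (ℓ + 1)) (m - t)) = w • st P q (t + ℓ) (m - t) := by
      rw [smul_comm, ← st_p hq hP (i := t + ℓ) (r := m - t) (by omega), Nat.add_assoc]
    have e2 : q ^ ℓ • (w • st P q (t + (ℓ + 1)) (m - t)) =
        w • st P q (t + ℓ + 1) (m - (t + ℓ)) := by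
      have e3 : m - t = (m - (t + ℓ)) + ℓ := by omega
      rw [smul_comm, e3, ← Nat.add_assoc, st_q_pow hq]
    have h2 := h ℓ (by omega)
    have e4 : η / (p : ℝ) ^ (ℓ + 1 - 1) = η / (p : ℝ) ^ (ℓ - 1) / p := by
      rw [div_div, ← pow_succ]
      congr 2
      omega
    rw [e4]
    refine tri_step (n := q ^ ℓ) (η := η) hp (Nat.Coprime.pow_right ℓ hpq) _ (by rw [e1]; exact h1)
      (by rw [e2]; exact h2) ?_
    have e5 : ((q ^ ℓ : ℕ) : ℝ) * (η / (p : ℝ) ^ (ℓ - 1)) / p = (q : ℝ) ^ ℓ / (p : ℝ) ^ ℓ * η := by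
      have e6 : (p : ℝ) ^ ℓ = (p : ℝ) ^ (ℓ - 1) * p := by
        rw [← pow_succ]
        congr 1
        omega
      rw [e6]
      push_cast
      field_simp
    rw [e5]
    have h3 : (q : ℝ) ^ ℓ / (p : ℝ) ^ ℓ ≤ 1 := by
      rw [div_le_one (by positivity)]
      have : (q : ℝ) ≤ p := by exact_mod_cast hqp.le
      gcongr
    nlinarith

end Pool.Agent.Lib.MP_b27257_nt.BT
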