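import Pool.Agent.Lib.MP_b27257_nt.BT.B01
import Pool.Agent.Lib.MP_b27257_nt.BT.B04

/-! Row bt-B05: no frequency is black on a whole segment. -/

namespace Pool.Agent.Lib.MP_b27257_nt.BT

open Finset

/-- By contradiction. `tri` and `exists_z` (`i = t + ℓ`, `r = m - t`) give `z` with `q^r ∣ p^i z - w`,
`|z| ≤ η q^r / p^(ℓ-1)`. `z ≠ 0`: otherwise `q^r ∣ w`, `|w| < q^r`. `p^i z ≠ w` since `|w| < p^i`. Then
`|w| |z| exp(ε h) ≤ η q^r ≤ q^r` and `ridout_pq` (`h0 ≥ 1`). -/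
theorem no_black {p q : ℕ} (hq : 1 < q) (hqp : q < p) (hpq : Nat.Coprime p q) (C ε : ℝ) (hε : 0 < ε) {η : ℝ}
    (hη0 : 0 ≤ η) (hη : 2 * η < 1 / p) : ∃ h0 : ℕ, ∀ h : ℕ, h0 ≤ h → ∀ m : ℕ, (m : ℝ) ≤ C * h →
    ∀ P : ℤ, P * p ≡ 1 [ZMOD (q : ℤ) ^ m] → ∀ w : ℤ, w ≠ 0 → ∀ t ℓ : ℕ, 1 ≤ ℓ → t + ℓ ≤ m →
    |(w : ℝ)| * Real.exp (ε * h) ≤ (p : ℝ) ^ (ℓ - 1) →
    |(w : ℝ)| * Real.exp (ε * h) ≤ (q : ℝ) ^ (m - t) →
      ∃ j < ℓ, η < ‖w • st P q (t + j + 1) (m - (t + j))‖ := by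
  obtain ⟨h1, hr⟩ := ridout_pq p q (by omega) hq C ε hε
  refine ⟨max h1 1, ?_⟩
  intro h hh m hm P hP w hw t ℓ hℓ htℓ hw1 hw2
  by_contra hcon
  push Not at hcon
  have hh1 : h1 ≤ h := le_trans (le_max_left _ _) hh
  have hh2 : 1 ≤ h := le_trans (le_max_right _ _) hh
  have hq0 : 0 < q := by omega
  have htri := tri hq0 hqp hpq hP hη0 hη w t ℓ hℓ htℓ hcon
  obtain ⟨z, hz1, hz2⟩ := exists_z hq0 hP (i := t + ℓ) (r := m - t) (by omega) w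
  have hexp : 1 < Real.exp (ε * h) := by
    rw [Real.one_lt_exp_iff]
    have : (0 : ℝ) < h := by exact_mod_cast hh2
    positivity
  have hwpos : 0 < |(w : ℝ)| := abs_pos.2 (by exact_mod_cast hw)
  have hwlt : |(w : ℝ)| < |(w : ℝ)| * Real.exp (ε * h) := by nlinarith
  have hp1 : (1 : ℝ) < p := by exact_mod_cast (by omega : 1 < p)
  have hz0 : z ≠ 0 := by
    intro h0
    rw [h0, mul_zero, zero_sub, dvd_neg] at hz1
    have h3 : (q : ℤ) ^ (m - t) ≤ |w| := Int.le_of_dvd (abs_pos.2 hw) ((dvd_abs _ _).2 hz1)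
    have h4 : (q : ℝ) ^ (m - t) ≤ |(w : ℝ)| := by exact_mod_cast h3
    linarith
  have hzw : (p : ℤ) ^ (t + ℓ) * z ≠ w := by
    intro h0
    have h3 : |(w : ℝ)| = (p : ℝ) ^ (t + ℓ) * |(z : ℝ)| := by
      rw [← h0]
      push_cast
      rw [abs_mul, abs_of_pos (by positivity)]
    have h4 : (1 : ℝ) ≤ |(z : ℝ)| := by
      have : (1 : ℤ) ≤ |z| := Int.one_le_abs hz0
      exact_mod_cast this
    have h5 : (p : ℝ) ^ (ℓ - 1) ≤ (p : ℝ) ^ (t + ℓ) := pow_le_pow_right₀ hp1.le (by omega)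
    have h6 : (0 : ℝ) < (p : ℝ) ^ (t + ℓ) := by positivity
    nlinarith
  have hpp : (0 : ℝ) < (p : ℝ) ^ (ℓ - 1) := by positivity
  have hqq : (0 : ℝ) < (q : ℝ) ^ (m - t) := by
    have : (0 : ℝ) < q := by exact_mod_cast hq0
    positivity
  have hη1 : η ≤ 1 := by
    have h3 : 1 / (p : ℝ) ≤ 1 := by
      rw [div_le_one (by linarith)]
      exact hp1.le
    linarith
  have hz3 : |(z : ℝ)| ≤ η / (p : ℝ) ^ (ℓ - 1) * (q : ℝ) ^ (m - t) := by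
    rw [hz2]
    exact mul_le_mul_of_nonneg_right htri hqq.le
  have hmain : |(w : ℝ)| * |(z : ℝ)| * Real.exp (ε * h) ≤ (q : ℝ) ^ (m - t) := by
    calc |(w : ℝ)| * |(z : ℝ)| * Real.exp (ε * h) = (|(w : ℝ)| * Real.exp (ε * h)) * |(z : ℝ)| := by ring
      _ ≤ (p : ℝ) ^ (ℓ - 1) * (η / (p : ℝ) ^ (ℓ - 1) * (q : ℝ) ^ (m - t)) :=
          mul_le_mul hw1 hz3 (abs_nonneg _) hpp.le
      _ = η * (q : ℝ) ^ (m - t) := by
          field_simp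
      _ ≤ 1 * (q : ℝ) ^ (m - t) := mul_le_mul_of_nonneg_right hη1 hqq.le
      _ = (q : ℝ) ^ (m - t) := one_mul _
  have hi : ((t + ℓ : ℕ) : ℝ) ≤ C * h := le_trans (by exact_mod_cast htℓ) hm
  have hr' : ((m - t : ℕ) : ℝ) ≤ C * h := le_trans (by exact_mod_cast Nat.sub_le _ _) hm
  exact hr h hh1 (t + ℓ) (m - t) hi hr' w z hw hz0 hz1 hzw hmain hw2

end Pool.Agent.Lib.MP_b27257_nt.BT
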