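import Pool.Agent.Lib.MP_b27257_nt.BT.Defs

/-! Row bt-B06: few frequencies have few white sites. -/

namespace Pool.Agent.Lib.MP_b27257_nt.BT

open Finset

/-- the representative in `[0, 1)` -/
noncomputable def b06_val (z : UnitAddCircle) : ℝ := (AddCircle.equivIco (1 : ℝ) 0 z : ℝ)

theorem b06_val_mem (z : UnitAddCircle) : 0 ≤ b06_val z ∧ b06_val z < 1 := by
  have h := (AddCircle.equivIco (1 : ℝ) 0 z).2
  have h2 : b06_val z < 0 + 1 := h.2
  rw [zero_add] at h2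
  exact ⟨h.1, h2⟩

theorem b06_coe_val (z : UnitAddCircle) : ((b06_val z : ℝ) : UnitAddCircle) = z :=
  AddCircle.coe_equivIco

open Classical in
/-- the code of a point -/
noncomputable def b06_code (Q : ℕ) (z : UnitAddCircle) : ℕ :=
  if 1 / (Q : ℝ) < ‖z‖ then 1 + ⌊(Q : ℝ) * b06_val z⌋₊ else 0

theorem b06_code_lt {Q : ℕ} (hQ : 1 ≤ Q) (z : UnitAddCircle) : b06_code Q z < Q + 1 := by
  have hQ0 : (0 : ℝ) < Q := by exact_mod_cast hQ
  rw [b06_code]
  split_ifs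
  · have h1 : ⌊(Q : ℝ) * b06_val z⌋₊ < Q := by
      rw [Nat.floor_lt (mul_nonneg hQ0.le (b06_val_mem z).1)]
      calc (Q : ℝ) * b06_val z < Q * 1 := mul_lt_mul_of_pos_left (b06_val_mem z).2 hQ0
        _ = Q := mul_one _
    omega
  · omega

theorem b06_code_eq {Q : ℕ} (hQ : 1 ≤ Q) (z z' : UnitAddCircle)
    (h : b06_code Q z = b06_code Q z') : ‖z - z'‖ ≤ 2 / Q := by
  have hQ0 : (0 : ℝ) < Q := by exact_mod_cast hQ
  rw [b06_code, b06_code] at h
  split_ifs at h with h1 h2 h3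
  · have h4 : ⌊(Q : ℝ) * b06_val z⌋₊ = ⌊(Q : ℝ) * b06_val z'⌋₊ := by omega
    have h5 := Nat.floor_le (mul_nonneg hQ0.le (b06_val_mem z).1)
    have h6 := Nat.lt_floor_add_one ((Q : ℝ) * b06_val z)
    have h7 := Nat.floor_le (mul_nonneg hQ0.le (b06_val_mem z').1)
    have h8 := Nat.lt_floor_add_one ((Q : ℝ) * b06_val z')
    rw [h4] at h5 h6
    have h9 : |(Q : ℝ) * b06_val z - Q * b06_val z'| ≤ 1 := by
      rw [abs_le]
      constructor <;> linarith
    have h10 : |b06_val z - b06_val z'| ≤ 1 / Q := by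
      rw [← mul_sub, abs_mul, abs_of_pos hQ0] at h9
      rw [le_div_iff₀ hQ0, mul_comm]
      exact h9
    have h11 : ‖z - z'‖ ≤ |b06_val z - b06_val z'| := by
      conv_lhs => rw [← b06_coe_val z, ← b06_coe_val z', ← AddCircle.coe_sub]
      rw [UnitAddCircle.norm_eq]
      have h12 := round_le (b06_val z - b06_val z') 0
      simpa using h12
    refine h11.trans (h10.trans ?_)
    apply div_le_div_of_nonneg_right _ hQ0.le
    norm_num
  · omega
  · omega
  · push Not at h1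
    have h3' := not_lt.1 ‹¬ 1 / (Q : ℝ) < ‖z'‖›
    calc ‖z - z'‖ ≤ ‖z‖ + ‖z'‖ := norm_sub_le _ _
      _ ≤ 1 / Q + 1 / Q := add_le_add h1 h3'
      _ = 2 / Q := by ring

open Classical in
/-- Map `v` to `g : Fin ℓ → Fin (Q + 1)`: `0` at the black `j` (`‖x j v‖ ≤ 1/Q`), `1 + ⌊Q y⌋` at the white ones,
`y ∈ [0, 1)` the representative of `x j v` (`AddCircle.equivIco`). Two `v, v'` of the set with the same `g` have
`‖x j v - x j v'‖ ≤ 2/Q` for all `j < ℓ`, so are equal. The number of `g` with at most `K` nonzero values is at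
most `∑_g y^(#nonzero - K) = (1 + Q y)^ℓ / y^K` (`Finset.prod_univ_sum`). -/
theorem card_few_white {ℓ K Q : ℕ} (hQ : 1 ≤ Q) (V : Finset ℤ) (x : ℕ → ℤ → UnitAddCircle)
    (hsep : ∀ v ∈ V, ∀ v' ∈ V, (∀ j < ℓ, ‖x j v - x j v'‖ ≤ 2 / Q) → v = v') {y : ℝ} (hy0 : 0 < y)
    (hy1 : y ≤ 1) :
    ((V.filter fun v => ((range ℓ).filter fun j => 1 / (Q : ℝ) < ‖x j v‖).card ≤ K).card : ℝ) ≤
      (1 + Q * y) ^ ℓ / y ^ K := by
  set g : ℤ → Fin ℓ → Fin (Q + 1) := fun v j => ⟨b06_code Q (x j v), b06_code_lt hQ _⟩ with hg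
  set φ : Fin (Q + 1) → ℝ := fun a => if a = 0 then 1 else y with hφ
  set W := V.filter fun v => ((range ℓ).filter fun j => 1 / (Q : ℝ) < ‖x j v‖).card ≤ K with hW
  have hφ0 : ∀ a, 0 ≤ φ a := by
    intro a
    simp only [hφ]
    split_ifs
    · norm_num
    · exact hy0.le
  have hinj : Set.InjOn g (W : Set ℤ) := by
    intro v hv v' hv' hvv
    have hv1 : v ∈ V := (mem_filter.1 hv).1
    have hv2 : v' ∈ V := (mem_filter.1 hv').1
    apply hsep v hv1 v' hv2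
    intro j hj
    apply b06_code_eq hQ
    have h1 := congrFun hvv ⟨j, hj⟩
    exact congrArg Fin.val h1
  have hcode : ∀ z : UnitAddCircle, 1 / (Q : ℝ) < ‖z‖ ↔ b06_code Q z ≠ 0 := by
    intro z
    rw [b06_code]
    split_ifs with h
    · simp only [h, ne_eq, true_iff]
      omega
    · simp only [h, ne_eq, not_true_eq_false]
  have hprod : ∀ v ∈ W, y ^ K ≤ ∏ j, φ (g v j) := by
    intro v hv
    have h1 : ((range ℓ).filter fun j => 1 / (Q : ℝ) < ‖x j v‖).card ≤ K := (mem_filter.1 hv).2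
    have h2 : ∏ j, φ (g v j) = y ^ ((univ : Finset (Fin ℓ)).filter fun j => ¬ g v j = 0).card := by
      simp only [hφ]
      rw [prod_ite, prod_const_one, one_mul, prod_const]
    have h3 : ((univ : Finset (Fin ℓ)).filter fun j => ¬ g v j = 0).card =
        ((range ℓ).filter fun j => 1 / (Q : ℝ) < ‖x j v‖).card := by
      rw [card_filter, card_filter, Finset.sum_range]
      apply sum_congr rfl
      intro j _
      have h4 : (¬ g v j = 0) ↔ 1 / (Q : ℝ) < ‖x j v‖ := by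
        rw [hcode, ne_eq, not_iff_not, Fin.ext_iff]
        rfl
      by_cases h5 : 1 / (Q : ℝ) < ‖x j v‖
      · rw [if_pos h5, if_pos (h4.2 h5)]
      · rw [if_neg h5, if_neg (fun h => h5 (h4.1 h))]
    rw [h2, h3]
    exact pow_le_pow_of_le_one hy0.le hy1 h1
  have hsum : ∑ a, φ a = 1 + Q * y := by
    rw [Fin.sum_univ_succ]
    simp only [hφ]
    simp [Fin.succ_ne_zero]
  rw [le_div_iff₀ (pow_pos hy0 K)]
  calc (W.card : ℝ) * y ^ K = ∑ v ∈ W, y ^ K := by rw [sum_const, nsmul_eq_mul]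
    _ ≤ ∑ v ∈ W, ∏ j, φ (g v j) := sum_le_sum hprod
    _ = ∑ f ∈ W.image g, ∏ j, φ (f j) := by rw [sum_image hinj]
    _ ≤ ∑ f : Fin ℓ → Fin (Q + 1), ∏ j, φ (f j) :=
        sum_le_univ_sum_of_nonneg fun f => prod_nonneg fun j _ => hφ0 _
    _ = (∑ a, φ a) ^ ℓ := (Fintype.sum_pow φ ℓ).symm
    _ = (1 + Q * y) ^ ℓ := by rw [hsum]

end Pool.Agent.Lib.MP_b27257_nt.BT
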