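import Mathlib

/-! Row bt-B07: choice of the proportion. -/

namespace Pool.Agent.Lib.MP_b27257_nt.BT

open Finset

/-- `y = min 1 (κ / (2 Q))`, `ω = κ / (2 (1 + log (1/y)))`: `(1 + Q y)^ℓ ≤ exp(κ ℓ / 2)`,
`y^(-K) = exp(K log (1/y)) ≤ exp(κ ℓ / 2)`. -/
theorem exists_omega (Q : ℕ) (hQ : 1 ≤ Q) {κ : ℝ} (hκ : 0 < κ) : ∃ ω y : ℝ, 0 < ω ∧ 0 < y ∧ y ≤ 1 ∧
    ∀ ℓ K : ℕ, (K : ℝ) ≤ ω * ℓ → (1 + Q * y) ^ ℓ / y ^ K ≤ Real.exp (κ * ℓ) := by
  have hQ' : (0 : ℝ) < Q := by exact_mod_cast hQ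
  set y : ℝ := min 1 (κ / (2 * Q)) with hy
  have hy0 : 0 < y := lt_min one_pos (by positivity)
  have hy1 : y ≤ 1 := min_le_left _ _
  have hQy : Q * y ≤ κ / 2 := by
    calc (Q : ℝ) * y ≤ Q * (κ / (2 * Q)) := mul_le_mul_of_nonneg_left (min_le_right _ _) hQ'.le
      _ = κ / 2 := by field_simp
  set M : ℝ := -Real.log y with hM
  have hM0 : 0 ≤ M := by
    rw [hM, neg_nonneg]
    exact Real.log_nonpos hy0.le hy1
  have hω : 0 < κ / (2 * (1 + M)) := by positivity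
  refine ⟨κ / (2 * (1 + M)), y, hω, hy0, hy1, fun ℓ K hK => ?_⟩
  have hl : (0 : ℝ) ≤ ℓ := Nat.cast_nonneg ℓ
  have h1 : (1 + Q * y) ^ ℓ ≤ Real.exp (κ / 2 * ℓ) := by
    have h2 : 1 + Q * y ≤ Real.exp (κ / 2) := by
      have := Real.add_one_le_exp (κ / 2)
      linarith
    calc (1 + Q * y) ^ ℓ ≤ Real.exp (κ / 2) ^ ℓ := pow_le_pow_left₀ (by positivity) h2 ℓ
      _ = Real.exp (κ / 2 * ℓ) := by rw [← Real.exp_nat_mul, mul_comm]
  have h3 : 1 / y ^ K ≤ Real.exp (κ / 2 * ℓ) := by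
    have h4 : y ^ K = Real.exp (-(K * M)) := by
      rw [hM, mul_neg, neg_neg, Real.exp_nat_mul, Real.exp_log hy0]
    rw [h4, one_div, ← Real.exp_neg, neg_neg]
    refine Real.exp_le_exp.2 ?_
    calc (K : ℝ) * M ≤ κ / (2 * (1 + M)) * ℓ * M := mul_le_mul_of_nonneg_right hK hM0
      _ = κ / 2 * ℓ * (M / (1 + M)) := by field_simp
      _ ≤ κ / 2 * ℓ * 1 := by
          refine mul_le_mul_of_nonneg_left ?_ (by positivity)
          rw [div_le_one (by linarith)]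
          linarith
      _ = κ / 2 * ℓ := mul_one _
  calc (1 + Q * y) ^ ℓ / y ^ K = (1 + Q * y) ^ ℓ * (1 / y ^ K) := by rw [mul_one_div]
    _ ≤ Real.exp (κ / 2 * ℓ) * Real.exp (κ / 2 * ℓ) :=
        mul_le_mul h1 h3 (by positivity) (Real.exp_pos _).le
    _ = Real.exp (κ * ℓ) := by
        rw [← Real.exp_add]
        congr 1
        ring

end Pool.Agent.Lib.MP_b27257_nt.BT
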