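import Pool.Agent.Lib.MP_b27257_nt.BT.Defs

/-! Row bt-B08: the character sum. -/

namespace Pool.Agent.Lib.MP_b27257_nt.BT

open Finset

theorem b08_norm_ee (y : ℝ) : ‖ee y‖ = 1 := by
  unfold ee
  have h : (2 * Real.pi * Complex.I * y : ℂ) = ((2 * Real.pi * y : ℝ) : ℂ) * Complex.I := by
    push_cast; ring
  rw [h, Complex.norm_exp_ofReal_mul_I]

theorem gs_nonneg (A : Finset ℕ) (y : ℝ) : 0 ≤ gs A y := norm_nonneg _

theorem gs_le (A : Finset ℕ) (y : ℝ) : gs A y ≤ A.card := by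
  unfold gs
  refine (norm_sum_le _ _).trans ?_
  simp [b08_norm_ee]

theorem b08_pair (u v : ℝ) : ‖ee u + ee v‖ = 2 * |Real.cos (Real.pi * (u - v))| := by
  have h : ee u + ee v = ee ((u + v) / 2) * (2 * (Real.cos (Real.pi * (u - v)) : ℂ)) := by
    unfold ee
    rw [Complex.ofReal_cos, Complex.two_cos, mul_add, ← Complex.exp_add, ← Complex.exp_add]
    congr 2 <;> (push_cast; ring)
  rw [h, norm_mul, b08_norm_ee, one_mul, norm_mul, Complex.norm_real, Real.norm_eq_abs]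
  simp

theorem b08_cos (θ : ℝ) : |Real.cos (Real.pi * θ)| ≤ 1 - 2 * ‖(θ : UnitAddCircle)‖ ^ 2 := by
  rw [UnitAddCircle.norm_eq, sq_abs]
  have h1 : |θ - round θ| ≤ 1 / 2 := abs_sub_round θ
  have h2 : Real.cos (Real.pi * (θ - round θ)) = (-1) ^ (round θ) * Real.cos (Real.pi * θ) := by
    rw [← Real.cos_sub_int_mul_pi]; congr 1; ring
  have h3 : |Real.cos (Real.pi * θ)| = |Real.cos (Real.pi * (θ - round θ))| := by
    rw [h2, abs_mul, abs_zpow, abs_neg, abs_one, one_zpow, one_mul]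
  have hpi := Real.pi_pos
  have h4 : |Real.pi * (θ - round θ)| ≤ Real.pi := by
    rw [abs_mul, abs_of_pos hpi]; nlinarith
  have h5 : 0 ≤ Real.cos (Real.pi * (θ - round θ)) := by
    apply Real.cos_nonneg_of_mem_Icc
    rw [abs_le] at h1
    constructor <;> nlinarith
  rw [h3, abs_of_nonneg h5]
  have h6 := Real.cos_le_one_sub_mul_cos_sq h4
  refine h6.trans (le_of_eq ?_)
  field_simp

/-- `|e(a y) + e(b y)| = 2 |cos(π (a - b) y)| = 2 cos(π ‖(a - b) y‖) ≤ 2 - 4 ‖(a - b) y‖²`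
(`1 - cos θ ≥ 2 θ²/π²` for `|θ| ≤ π`), so `gs A y ≤ |A| - 4/Q² ≤ |A| exp(-4/(Q² |A|))`. -/
theorem gs_white {A : Finset ℕ} {a b : ℕ} (ha : a ∈ A) (hb : b ∈ A) (hab : a ≠ b) {Q : ℕ} (hQ : 2 ≤ Q)
    {y : ℝ} (h : 1 / (Q : ℝ) < ‖(((((a : ℤ) - (b : ℤ) : ℤ) : ℝ) * y : ℝ) : UnitAddCircle)‖) :
    gs A y ≤ A.card * Real.exp (-(4 / ((Q : ℝ) ^ 2 * A.card))) := by
  have hQ0 : (0 : ℝ) < Q := by positivity
  have hcard : 2 ≤ A.card := by
    have := Finset.card_le_card (s := {a, b}) (t := A) (by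
      intro x hx
      simp only [Finset.mem_insert, Finset.mem_singleton] at hx
      rcases hx with rfl | rfl <;> assumption)
    rwa [Finset.card_pair hab] at this
  have hc0 : (0 : ℝ) < A.card := by
    have : 0 < A.card := by omega
    exact_mod_cast this
  set d : ℝ := ‖(((((a : ℤ) - (b : ℤ) : ℤ) : ℝ) * y : ℝ) : UnitAddCircle)‖ with hd
  have hbe : b ∈ A.erase a := Finset.mem_erase.mpr ⟨hab.symm, hb⟩
  have h1 : gs A y ≤ A.card - 4 * d ^ 2 := by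
    unfold gs
    rw [← Finset.add_sum_erase A _ ha, ← Finset.add_sum_erase (A.erase a) _ hbe, ← add_assoc]
    refine (norm_add_le _ _).trans ?_
    have h2 : ‖ee (a * y) + ee (b * y)‖ ≤ 2 - 4 * d ^ 2 := by
      rw [b08_pair]
      have h3 := b08_cos ((((a : ℤ) - (b : ℤ) : ℤ) : ℝ) * y)
      have h4 : Real.pi * (a * y - b * y) = Real.pi * ((((a : ℤ) - (b : ℤ) : ℤ) : ℝ) * y) := by
        push_cast; ring
      rw [h4]
      linarith
    have h5 : ‖∑ x ∈ (A.erase a).erase b, ee (x * y)‖ ≤ A.card - 2 := by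
      refine (norm_sum_le _ _).trans ?_
      simp only [b08_norm_ee, Finset.sum_const, nsmul_eq_mul, mul_one]
      rw [Finset.card_erase_of_mem hbe, Finset.card_erase_of_mem ha]
      have : A.card - 1 - 1 = A.card - 2 := by omega
      rw [this, Nat.cast_sub hcard]
      norm_num
    linarith
  have h6 : 4 / (Q : ℝ) ^ 2 ≤ 4 * d ^ 2 := by
    have h7 : (1 / (Q : ℝ)) ^ 2 ≤ d ^ 2 := by
      apply pow_le_pow_left₀ (by positivity) h.le
    have h8 : 4 / (Q : ℝ) ^ 2 = 4 * (1 / (Q : ℝ)) ^ 2 := by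
      field_simp
    rw [h8]; linarith
  have h9 : (A.card : ℝ) - 4 / (Q : ℝ) ^ 2 = A.card * (1 - 4 / ((Q : ℝ) ^ 2 * A.card)) := by
    field_simp
  have h10 : 1 - 4 / ((Q : ℝ) ^ 2 * A.card) ≤ Real.exp (-(4 / ((Q : ℝ) ^ 2 * A.card))) := by
    have := Real.add_one_le_exp (-(4 / ((Q : ℝ) ^ 2 * A.card)))
    linarith
  calc gs A y ≤ A.card - 4 / (Q : ℝ) ^ 2 := by linarith
    _ = A.card * (1 - 4 / ((Q : ℝ) ^ 2 * A.card)) := h9
    _ ≤ _ := by gcongr

end Pool.Agent.Lib.MP_b27257_nt.BT
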