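import Pool.Agent.Lib.MP_b27257_nt.BT.Defs

/-! Row bt-B09: the Fejer kernel and the Fourier bound. -/

namespace Pool.Agent.Lib.MP_b27257_nt.BT

open Finset

lemma b09_re (y : ℝ) : (ee y).re = Real.cos (2 * Real.pi * y) := by
  unfold ee
  have : (2 * Real.pi * Complex.I * y : ℂ) = ((2 * Real.pi * y : ℝ) : ℂ) * Complex.I := by
    push_cast; ring
  rw [this, Complex.exp_ofReal_mul_I_re]

lemma b09_add (x y : ℝ) : ee (x + y) = ee x * ee y := by
  unfold ee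
  rw [← Complex.exp_add]
  congr 1
  push_cast; ring

lemma b09_zero : ee 0 = 1 := by
  unfold ee
  simp

lemma b09_int (k : ℤ) : ee (k : ℝ) = 1 := by
  unfold ee
  rw [Complex.exp_eq_one_iff]
  exact ⟨k, by push_cast; ring⟩

lemma b09_conj (y : ℝ) : (starRingEnd ℂ) (ee y) = ee (-y) := by
  unfold ee
  rw [← Complex.exp_conj]
  congr 1
  have h2 : (starRingEnd ℂ) (2 : ℂ) = 2 := Complex.conj_ofNat 2
  simp [Complex.conj_ofReal, h2]

lemma b09_sum {ι : Type*} (s : Finset ι) (f : ι → ℝ) : ee (∑ i ∈ s, f i) = ∏ i ∈ s, ee (f i) := by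
  classical
  induction s using Finset.induction_on with
  | empty => simp [b09_zero]
  | insert a s ha ih => rw [Finset.sum_insert ha, Finset.prod_insert ha, b09_add, ih]

/-- The real part is `∑ cos(2 π b θ) ≥ V cos(π/4)`. -/
theorem fejer_low {V : ℕ} {θ : ℝ} (h0 : 0 ≤ θ) (h : 8 * V * θ ≤ 1) :
    (V : ℝ) ^ 2 / 2 ≤ ‖∑ b ∈ range V, ee (b * θ)‖ ^ 2 := by
  have hre : (V : ℝ) * (Real.sqrt 2 / 2) ≤ (∑ b ∈ range V, ee (b * θ)).re := by
    rw [Complex.re_sum]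
    have : ∀ b ∈ range V, Real.sqrt 2 / 2 ≤ (ee (b * θ)).re := by
      intro b hb
      rw [b09_re, ← Real.cos_pi_div_four]
      have hb' : (b : ℝ) ≤ V := by exact_mod_cast (Finset.mem_range.mp hb).le
      have h1 : (b : ℝ) * θ ≤ V * θ := mul_le_mul_of_nonneg_right hb' h0
      have h2 : (b : ℝ) * θ ≤ 1 / 8 := by linarith
      have h3 : 0 ≤ (b : ℝ) * θ := by positivity
      have hpi := Real.pi_pos
      apply Real.cos_le_cos_of_nonneg_of_le_pi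
      · positivity
      · linarith
      · have : 2 * Real.pi * (b * θ) ≤ 2 * Real.pi * (1 / 8) := by
          apply mul_le_mul_of_nonneg_left h2; positivity
        linarith
    calc (V : ℝ) * (Real.sqrt 2 / 2) = ∑ _b ∈ range V, Real.sqrt 2 / 2 := by simp
      _ ≤ _ := Finset.sum_le_sum this
  have h1 : (V : ℝ) * (Real.sqrt 2 / 2) ≤ ‖∑ b ∈ range V, ee (b * θ)‖ := hre.trans (Complex.re_le_norm _)
  have h2 : 0 ≤ (V : ℝ) * (Real.sqrt 2 / 2) := by positivity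
  have h3 := pow_le_pow_left₀ h2 h1 2
  have h4 : ((V : ℝ) * (Real.sqrt 2 / 2)) ^ 2 = (V : ℝ) ^ 2 / 2 := by
    have := Real.sq_sqrt (show (0 : ℝ) ≤ 2 by norm_num)
    rw [mul_pow, div_pow, this]; ring
  linarith

lemma b09_norm_sq {V : ℕ} (Y : ℝ) :
    ((‖∑ b ∈ range V, ee (b * Y)‖ ^ 2 : ℝ) : ℂ) =
      ∑ b ∈ range V, ∑ b' ∈ range V, ee ((((b : ℤ) - (b' : ℤ) : ℤ) : ℝ) * Y) := by
  have h : ((‖∑ b ∈ range V, ee (b * Y)‖ ^ 2 : ℝ) : ℂ) =
      (∑ b ∈ range V, ee (b * Y)) * (starRingEnd ℂ) (∑ b ∈ range V, ee (b * Y)) := by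
    rw [Complex.mul_conj, Complex.normSq_eq_norm_sq]
  rw [h, map_sum, Finset.sum_mul_sum]
  apply Finset.sum_congr rfl; intro b _
  apply Finset.sum_congr rfl; intro b' _
  rw [b09_conj, ← b09_add]
  congr 1
  push_cast; ring

/-- For `a` in the set let `x = X P q a % q^m ∈ [0, N]`: `fejer_low` with `θ = x / q^m`. So the left side is at most
`∑_{a ∈ A^m} |∑_b ee (b X a / q^m)|²` (`ee` has period `1`), which is
`∑_{b,b'} ∑_a ee ((b' - b) ∑_j a_j P^(j+1)/q^(m-j)) = ∑_{b,b'} ∏_j ∑_{α ∈ A} ee (α (b' - b) P^(j+1)/q^(m-j))`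
(`Finset.prod_univ_sum`), at most `∑ ∏ gs`. -/
theorem fourier_count {q m V N : ℕ} (hq : 0 < q) (P : ℤ) (A : Finset ℕ) (hV : 8 * V * N ≤ q ^ m) :
    (((Fintype.piFinset fun _ : Fin m => A).filter fun a => X P q a % (q : ℤ) ^ m ≤ N).card : ℝ) * V ^ 2 / 2 ≤
      ∑ b ∈ range V, ∑ b' ∈ range V,
        ∏ j ∈ range m, gs A ((((b' : ℤ) - (b : ℤ) : ℤ) : ℝ) * ((P : ℝ) ^ (j + 1) / (q : ℝ) ^ (m - j))) := by
  have hqm : (0 : ℝ) < (q : ℝ) ^ m := by positivity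
  have hqmZ : (0 : ℤ) < (q : ℤ) ^ m := by positivity
  -- each element of the filtered set contributes
  have hlow : ∀ a ∈ (Fintype.piFinset fun _ : Fin m => A).filter (fun a => X P q a % (q : ℤ) ^ m ≤ N),
      (V : ℝ) ^ 2 / 2 ≤ ‖∑ b ∈ range V, ee (b * ((X P q a : ℝ) / (q : ℝ) ^ m))‖ ^ 2 := by
    intro a ha
    have hx := (Finset.mem_filter.mp ha).2
    set x : ℤ := X P q a % (q : ℤ) ^ m with hxdef
    have hx0 : 0 ≤ x := Int.emod_nonneg _ hqmZ.ne'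
    have hθ0 : 0 ≤ (x : ℝ) / (q : ℝ) ^ m := by
      have : (0 : ℝ) ≤ (x : ℝ) := by exact_mod_cast hx0
      positivity
    have hθ1 : 8 * (V : ℝ) * ((x : ℝ) / (q : ℝ) ^ m) ≤ 1 := by
      have h1 : (x : ℝ) ≤ (N : ℝ) := by exact_mod_cast hx
      have h2 : 8 * (V : ℝ) * N ≤ (q : ℝ) ^ m := by exact_mod_cast hV
      have h3 : 8 * (V : ℝ) * x ≤ (q : ℝ) ^ m := by
        have : 8 * (V : ℝ) * x ≤ 8 * (V : ℝ) * N := mul_le_mul_of_nonneg_left h1 (by positivity)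
        linarith
      rw [← mul_div_assoc, div_le_one hqm]
      exact h3
    have hf := fejer_low (V := V) hθ0 hθ1
    have hsum : ∑ b ∈ range V, ee (b * ((X P q a : ℝ) / (q : ℝ) ^ m)) =
        ∑ b ∈ range V, ee (b * ((x : ℝ) / (q : ℝ) ^ m)) := by
      apply Finset.sum_congr rfl
      intro b _
      have hX : X P q a = x + (q : ℤ) ^ m * (X P q a / (q : ℤ) ^ m) := by
        rw [hxdef]; exact (Int.emod_add_mul_ediv _ _).symm
      have hX' : (X P q a : ℝ) = (x : ℝ) + (q : ℝ) ^ m * ((X P q a / (q : ℤ) ^ m : ℤ) : ℝ) := by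
        exact_mod_cast hX
      have : (b : ℝ) * ((X P q a : ℝ) / (q : ℝ) ^ m) =
          b * ((x : ℝ) / (q : ℝ) ^ m) + (((b : ℤ) * (X P q a / (q : ℤ) ^ m) : ℤ) : ℝ) := by
        rw [Int.cast_mul]
        generalize (((X P q a / (q : ℤ) ^ m : ℤ) : ℝ)) = k at hX' ⊢
        rw [hX']
        push_cast
        field_simp
      rw [this, b09_add, b09_int, mul_one]
    rw [hsum]; exact hf
  have hstep1 : (((Fintype.piFinset fun _ : Fin m => A).filter fun a => X P q a % (q : ℤ) ^ m ≤ N).card : ℝ)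
      * V ^ 2 / 2 ≤ ∑ a ∈ (Fintype.piFinset fun _ : Fin m => A),
        ‖∑ b ∈ range V, ee (b * ((X P q a : ℝ) / (q : ℝ) ^ m))‖ ^ 2 := by
    calc _ = ∑ _a ∈ (Fintype.piFinset fun _ : Fin m => A).filter (fun a => X P q a % (q : ℤ) ^ m ≤ N),
          (V : ℝ) ^ 2 / 2 := by rw [Finset.sum_const, nsmul_eq_mul]; ring
      _ ≤ ∑ a ∈ (Fintype.piFinset fun _ : Fin m => A).filter (fun a => X P q a % (q : ℤ) ^ m ≤ N),
          ‖∑ b ∈ range V, ee (b * ((X P q a : ℝ) / (q : ℝ) ^ m))‖ ^ 2 := Finset.sum_le_sum hlow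
      _ ≤ _ := Finset.sum_le_sum_of_subset_of_nonneg (Finset.filter_subset _ _) (fun _ _ _ => by positivity)
  refine hstep1.trans ?_
  -- the complex identity
  have hid : ((∑ a ∈ (Fintype.piFinset fun _ : Fin m => A),
        ‖∑ b ∈ range V, ee (b * ((X P q a : ℝ) / (q : ℝ) ^ m))‖ ^ 2 : ℝ) : ℂ) =
      ∑ b ∈ range V, ∑ b' ∈ range V, ∏ j : Fin m, ∑ α ∈ A,
        ee (α * ((((b' : ℤ) - (b : ℤ) : ℤ) : ℝ) * ((P : ℝ) ^ (j.1 + 1) / (q : ℝ) ^ (m - j.1)))) := by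
    rw [Complex.ofReal_sum]
    simp_rw [b09_norm_sq]
    rw [Finset.sum_comm]
    apply Finset.sum_congr rfl; intro b _
    rw [Finset.sum_comm]
    apply Finset.sum_congr rfl; intro b' _
    rw [Finset.prod_univ_sum]
    apply Finset.sum_congr rfl; intro a _
    rw [← b09_sum]
    congr 1
    unfold X
    push_cast
    rw [neg_div, Finset.sum_div, mul_neg, Finset.mul_sum, ← Finset.sum_neg_distrib]
    apply Finset.sum_congr rfl; intro j _
    have hj : (q : ℝ) ^ m = (q : ℝ) ^ j.1 * (q : ℝ) ^ (m - j.1) := by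
      rw [← pow_add]; congr 1; have := j.2; omega
    have hq0 : (q : ℝ) ≠ 0 := by positivity
    rw [hj]
    field_simp
    ring
  have hnorm : (∑ a ∈ (Fintype.piFinset fun _ : Fin m => A),
        ‖∑ b ∈ range V, ee (b * ((X P q a : ℝ) / (q : ℝ) ^ m))‖ ^ 2 : ℝ) ≤
      ‖∑ b ∈ range V, ∑ b' ∈ range V, ∏ j : Fin m, ∑ α ∈ A,
        ee (α * ((((b' : ℤ) - (b : ℤ) : ℤ) : ℝ) * ((P : ℝ) ^ (j.1 + 1) / (q : ℝ) ^ (m - j.1))))‖ := by
    rw [← hid, Complex.norm_real]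
    exact le_abs_self _
  refine hnorm.trans ?_
  refine (norm_sum_le _ _).trans (Finset.sum_le_sum fun b _ => ?_)
  refine (norm_sum_le _ _).trans (Finset.sum_le_sum fun b' _ => ?_)
  rw [norm_prod]
  rw [Finset.prod_range (fun j => gs A ((((b' : ℤ) - (b : ℤ) : ℤ) : ℝ) * ((P : ℝ) ^ (j + 1) / (q : ℝ) ^ (m - j))))]
  exact le_of_eq rfl

end Pool.Agent.Lib.MP_b27257_nt.BT
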