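import Pool.Agent.Lib.MP_b27257_nt.BT.Defs

/-! Row bt-B10: survivors are words. -/

namespace Pool.Agent.Lib.MP_b27257_nt.BT

open Finset

/-- the digit attached to `y` -/
def b10_a (p q y : ℕ) : ℕ := (q - p * y % q) % q

theorem b10_lt {p q : ℕ} (hq : 1 < q) (y : ℕ) : b10_a p q y < q := Nat.mod_lt _ (by omega)

theorem b10_dvd {p q : ℕ} (hq : 1 < q) (y : ℕ) : q ∣ p * y + b10_a p q y := by
  unfold b10_a
  have h1 : p * y % q < q := Nat.mod_lt _ (by omega)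
  rw [Nat.dvd_iff_mod_eq_zero, Nat.add_mod, Nat.mod_mod, ← Nat.add_mod, Nat.add_mod (p * y)]
  rcases Nat.eq_zero_or_pos (p * y % q) with h0 | h0
  · rw [h0]
    simp
  · rw [Nat.mod_eq_of_lt (show q - p * y % q < q by omega),
      show p * y % q + (q - p * y % q) = q by omega, Nat.mod_self]

theorem b10_uniq {p q : ℕ} {y a : ℕ} (ha : a < q) (h : q ∣ p * y + a) : b10_a p q y = a := by
  unfold b10_a
  have hq : 0 < q := by omega
  have h1 : p * y % q < q := Nat.mod_lt _ hq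
  have h2 : (p * y % q + a) % q = 0 := by
    have h3 := Nat.dvd_iff_mod_eq_zero.mp h
    rwa [Nat.add_mod, Nat.mod_eq_of_lt ha] at h3
  obtain ⟨c, hc⟩ := Nat.dvd_iff_mod_eq_zero.mpr h2
  have hc2 : c < 2 := by
    by_contra hcon
    have : q * 2 ≤ q * c := Nat.mul_le_mul_left _ (by omega)
    omega
  interval_cases c
  · have h4 : p * y % q = 0 := by omega
    have h5 : a = 0 := by omega
    rw [h4, h5]
    simp
  · have h4 : q - p * y % q = a := by omega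
    rw [h4, Nat.mod_eq_of_lt ha]

/-- `s ↦ (-p s) % q` is a bijection from `S` onto `dg p q S` (`p` is a unit modulo `q`). -/
theorem dg_card {p q : ℕ} (hq : 1 < q) (hpq : Nat.Coprime p q) {S : Finset ℕ} (hS : S ⊆ range q) :
    (dg p q S).card = S.card := by
  have h1 : dg p q S = S.image (b10_a p q) := by
    ext a
    unfold dg
    rw [mem_filter, mem_range, mem_image]
    constructor
    · rintro ⟨ha, s, hs, hd⟩
      exact ⟨s, hs, b10_uniq ha hd⟩
    · rintro ⟨s, hs, rfl⟩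
      exact ⟨b10_lt hq s, s, hs, b10_dvd hq s⟩
  rw [h1, card_image_of_injOn]
  intro s hs t ht hst
  have hs' := mem_range.mp (hS hs)
  have ht' := mem_range.mp (hS ht)
  have e1 := b10_dvd (p := p) hq s
  have e2 := b10_dvd (p := p) hq t
  have hst' : b10_a p q s = b10_a p q t := hst
  rw [← hst'] at e2
  have e3 : p * s ≡ p * t [MOD q] := by
    have e4 : p * s + b10_a p q s ≡ p * t + b10_a p q s [MOD q] := by
      unfold Nat.ModEq
      rw [Nat.dvd_iff_mod_eq_zero.mp e1, Nat.dvd_iff_mod_eq_zero.mp e2]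
    exact Nat.ModEq.add_right_cancel' _ e4
  have e5 : s ≡ t [MOD q] := Nat.ModEq.cancel_left_of_coprime hpq.symm e3
  unfold Nat.ModEq at e5
  rwa [Nat.mod_eq_of_lt hs', Nat.mod_eq_of_lt ht'] at e5

theorem b10_T {p q : ℕ} (hq : 1 < q) (y : ℕ) : q * T p q y = p * y + b10_a p q y := by
  have h1 := b10_dvd (p := p) hq y
  have h2 := b10_lt (p := p) hq y
  obtain ⟨c, hc⟩ := h1
  have h3 : T p q y = c := by
    unfold T
    have h4 : p * y + q - 1 = q * c + (q - 1 - b10_a p q y) := by omega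
    rw [h4, Nat.mul_add_div (by omega), Nat.div_eq_of_lt (by omega), add_zero]
  rw [h3, hc]

theorem b10_key {p q : ℕ} (hq : 1 < q) {m : ℕ} {P : ℤ} (hP : P * p ≡ 1 [ZMOD (q : ℤ) ^ m])
    (x : ℕ) (n : ℕ) :
    (x : ℤ) ≡ -∑ j ∈ range n, (b10_a p q ((T p q)^[j] x) : ℤ) * P ^ (j + 1) * (q : ℤ) ^ j +
      P ^ n * (q : ℤ) ^ n * ((T p q)^[n] x : ℕ) [ZMOD (q : ℤ) ^ m] := by
  induction n with
  | zero =>
    simp
  | succ n ih =>
    refine ih.trans ?_
    rw [sum_range_succ, Function.iterate_succ_apply']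
    set y := (T p q)^[n] x with hy
    have h1 : (q : ℤ) * (T p q y : ℕ) = (p : ℤ) * y + (b10_a p q y : ℕ) := by
      exact_mod_cast b10_T (p := p) hq y
    have h2 : P ^ (n + 1) * (q : ℤ) ^ (n + 1) * (T p q y : ℕ) =
        (P * p) * (P ^ n * (q : ℤ) ^ n * (y : ℕ)) +
          (b10_a p q y : ℤ) * P ^ (n + 1) * (q : ℤ) ^ n := by
      calc P ^ (n + 1) * (q : ℤ) ^ (n + 1) * (T p q y : ℕ)
          = P ^ (n + 1) * (q : ℤ) ^ n * ((q : ℤ) * (T p q y : ℕ)) := by ring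
        _ = _ := by
          rw [h1]
          ring
    rw [h2]
    have h3 : P ^ n * (q : ℤ) ^ n * (y : ℕ) ≡ (P * p) * (P ^ n * (q : ℤ) ^ n * (y : ℕ))
        [ZMOD (q : ℤ) ^ m] := by
      have := (hP.mul_right (P ^ n * (q : ℤ) ^ n * (y : ℕ))).symm
      rwa [one_mul] at this
    have h4 := (Int.ModEq.refl
      (-∑ j ∈ range n, (b10_a p q ((T p q)^[j] x) : ℤ) * P ^ (j + 1) * (q : ℤ) ^ j)).add h3
    refine h4.trans ?_
    rw [show -∑ j ∈ range n, (b10_a p q ((T p q)^[j] x) : ℤ) * P ^ (j + 1) * (q : ℤ) ^ j +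
        (P * p) * (P ^ n * (q : ℤ) ^ n * (y : ℕ)) =
        -(∑ j ∈ range n, (b10_a p q ((T p q)^[j] x) : ℤ) * P ^ (j + 1) * (q : ℤ) ^ j +
          (b10_a p q y : ℤ) * P ^ (n + 1) * (q : ℤ) ^ n) +
        ((P * p) * (P ^ n * (q : ℤ) ^ n * (y : ℕ)) +
          (b10_a p q y : ℤ) * P ^ (n + 1) * (q : ℤ) ^ n) by ring]

/-- `q T(x) = p x + a`, `a < q`; `a ∈ dg p q S` if `x % q ∈ S`. Iterate: `q^n T^n(x) = p^n x + ∑_{j<n} a_j q^j p^(n-1-j)`
with `a_j = q T^(j+1)(x) - p T^j(x)`; for `n = m` multiply by `P^m`: `x ≡ X P q a` modulo `q^m`. So `x ↦ a` is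
injective on the `x ≤ N < q^m` and `X P q a % q^m = x ≤ N`. -/
theorem survivors_le {p q : ℕ} (hq : 1 < q) (hqp : q < p) (hpq : Nat.Coprime p q) {S : Finset ℕ}
    (hS : S ⊆ range q) {m : ℕ} {P : ℤ} (hP : P * p ≡ 1 [ZMOD (q : ℤ) ^ m]) {N : ℕ} (hN : N < q ^ m) :
    Set.ncard {x : ℕ | 1 ≤ x ∧ x ≤ N ∧ ∀ n < m, (T p q)^[n] x % q ∈ S} ≤
      ((Fintype.piFinset fun _ : Fin m => dg p q S).filter fun a => X P q a % (q : ℤ) ^ m ≤ N).card := by
  have hX : ∀ x : ℕ, x < q ^ m →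
      X P q (fun j : Fin m => b10_a p q ((T p q)^[(j : ℕ)] x)) % (q : ℤ) ^ m = x := by
    intro x hx
    have h1 := b10_key hq hP x m
    have h2 : (x : ℤ) ≡ X P q (fun j : Fin m => b10_a p q ((T p q)^[(j : ℕ)] x))
        [ZMOD (q : ℤ) ^ m] := by
      refine h1.trans ?_
      have h3 : P ^ m * (q : ℤ) ^ m * ((T p q)^[m] x : ℕ) ≡ 0 [ZMOD (q : ℤ) ^ m] := by
        rw [Int.modEq_zero_iff_dvd]
        exact ⟨P ^ m * ((T p q)^[m] x : ℕ), by ring⟩
      have h4 := (Int.ModEq.refl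
        (-∑ j ∈ range m, (b10_a p q ((T p q)^[j] x) : ℤ) * P ^ (j + 1) * (q : ℤ) ^ j)).add h3
      refine h4.trans ?_
      rw [add_zero]
      unfold X
      rw [sum_range]
    have h5 : (x : ℤ) % (q : ℤ) ^ m = x := by
      apply Int.emod_eq_of_lt (Int.natCast_nonneg _)
      exact_mod_cast hx
    rw [← h2, h5]
  rw [← Set.ncard_coe_finset]
  apply Set.ncard_le_ncard_of_injOn
    (fun x => fun j : Fin m => b10_a p q ((T p q)^[(j : ℕ)] x))
  · rintro x ⟨-, hx, hxS⟩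
    rw [mem_coe, mem_filter]
    refine ⟨?_, ?_⟩
    · rw [Fintype.mem_piFinset]
      intro j
      unfold dg
      rw [mem_filter, mem_range]
      refine ⟨b10_lt hq _, _, hxS j j.2, ?_⟩
      have h1 := b10_dvd (p := p) hq ((T p q)^[(j : ℕ)] x)
      have h2 : p * ((T p q)^[(j : ℕ)] x % q) + b10_a p q ((T p q)^[(j : ℕ)] x) ≡
          p * ((T p q)^[(j : ℕ)] x) + b10_a p q ((T p q)^[(j : ℕ)] x) [MOD q] :=
        ((Nat.mod_modEq _ q).mul_left p).add_right _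
      exact (Nat.modEq_zero_iff_dvd.mp (h2.trans (Nat.modEq_zero_iff_dvd.mpr h1)))
    · have h3 := hX x (lt_of_le_of_lt hx hN)
      show X P q (fun j : Fin m => b10_a p q ((T p q)^[(j : ℕ)] x)) % (q : ℤ) ^ m ≤ N
      rw [h3]
      exact_mod_cast hx
  · rintro x ⟨-, hx, -⟩ y ⟨-, hy, -⟩ hxy
    have h1 := hX x (lt_of_le_of_lt hx hN)
    have h2 := hX y (lt_of_le_of_lt hy hN)
    have hxy' : (fun j : Fin m => b10_a p q ((T p q)^[(j : ℕ)] x)) =
        (fun j : Fin m => b10_a p q ((T p q)^[(j : ℕ)] y)) := hxy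
    rw [hxy', h2] at h1
    exact_mod_cast h1.symm

end Pool.Agent.Lib.MP_b27257_nt.BT
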