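import Pool.Agent.Lib.MP_b27257_nt.BT.B08

/-! Row bt-B11: the product over the sites. -/

namespace Pool.Agent.Lib.MP_b27257_nt.BT

open Finset

/-- The number of white sites is at least the sum over the disjoint segments. -/
theorem b11_card {m ℓ J K : ℕ} (hJ : J * ℓ ≤ m) (W : Finset ℕ) (w : ℕ → Finset ℕ)
    (h1 : ∀ k < J, w k ⊆ range ℓ) (h2 : ∀ k < J, ∀ j ∈ w k, k * ℓ + j < m → k * ℓ + j ∈ W)
    (hw : ∀ k < J, K ≤ (w k).card) : J * K ≤ W.card := by
  have e1 : J * K ≤ ((range J).sigma w).card := by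
    rw [card_sigma]
    calc J * K = ∑ _k ∈ range J, K := by rw [sum_const, card_range, smul_eq_mul]
      _ ≤ _ := sum_le_sum fun k hk => hw k (mem_range.1 hk)
  refine e1.trans (card_le_card_of_injOn (fun x => x.1 * ℓ + x.2) ?_ ?_)
  · rintro ⟨k, j⟩ hx
    rw [mem_coe, mem_sigma, mem_range] at hx
    have h3 : k < J := hx.1
    have h4 : j < ℓ := mem_range.1 (h1 k h3 hx.2)
    refine h2 k h3 j hx.2 ?_
    calc k * ℓ + j < k * ℓ + ℓ := by omega
      _ = (k + 1) * ℓ := by ring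
      _ ≤ J * ℓ := Nat.mul_le_mul_right _ h3
      _ ≤ m := hJ
  · rintro ⟨k, j⟩ hx ⟨k', j'⟩ hx' h
    rw [mem_coe, mem_sigma, mem_range] at hx hx'
    have h4 : j < ℓ := mem_range.1 (h1 k hx.1 hx.2)
    have h4' : j' < ℓ := mem_range.1 (h1 k' hx'.1 hx'.2)
    have h5 : k * ℓ + j = k' * ℓ + j' := h
    have hl : 0 < ℓ := by omega
    have h6 : (k * ℓ + j) / ℓ = k := by
      rw [Nat.mul_comm, Nat.mul_add_div hl, Nat.div_eq_of_lt h4, Nat.add_zero]
    have h7 : (k' * ℓ + j') / ℓ = k' := by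
      rw [Nat.mul_comm, Nat.mul_add_div hl, Nat.div_eq_of_lt h4', Nat.add_zero]
    have h8 : k = k' := by rw [← h6, ← h7, h5]
    subst h8
    have h9 : j = j' := by omega
    rw [h9]

/-- The segments `[k ℓ, (k+1) ℓ)`, `k < J`, are disjoint in `[0, m)`. All factors are at most `|A|` (`gs_le`), the white
ones at most `|A| exp(-4/(Q² |A|))` (`gs_white`; `(a - b) (v y) = (v (a - b)) y`). -/
theorem prod_gs_le {A : Finset ℕ} {a b : ℕ} (ha : a ∈ A) (hb : b ∈ A) (hab : a ≠ b) {Q : ℕ} (hQ : 2 ≤ Q)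
    {P : ℤ} {q m ℓ J K : ℕ} (hJ : J * ℓ ≤ m) (v : ℤ)
    (hw : ∀ k < J, K ≤ (wh P q m Q (k * ℓ) ℓ (v * ((a : ℤ) - (b : ℤ)))).card) :
    ∏ j ∈ range m, gs A ((v : ℝ) * ((P : ℝ) ^ (j + 1) / (q : ℝ) ^ (m - j))) ≤
      (A.card : ℝ) ^ m * Real.exp (-(4 / ((Q : ℝ) ^ 2 * A.card) * (J * K))) := by
  classical
  set c : ℝ := 4 / ((Q : ℝ) ^ 2 * A.card) with hc
  have hc0 : 0 ≤ c := by positivity
  set W : Finset ℕ := (range m).filter fun j =>
    1 / (Q : ℝ) < ‖(v * ((a : ℤ) - (b : ℤ))) • st P q (j + 1) (m - j)‖ with hW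
  have hWc : J * K ≤ W.card := by
    refine b11_card hJ W (fun k => wh P q m Q (k * ℓ) ℓ (v * ((a : ℤ) - (b : ℤ))))
      (fun k _ => filter_subset _ _) (fun k _ j hj hm => ?_) hw
    rw [hW, mem_filter, mem_range]
    exact ⟨hm, (mem_filter.1 hj).2⟩
  have hfac : ∀ j ∈ range m, gs A ((v : ℝ) * ((P : ℝ) ^ (j + 1) / (q : ℝ) ^ (m - j))) ≤
      (A.card : ℝ) * (if j ∈ W then Real.exp (-c) else 1) := by
    intro j _
    by_cases hj : j ∈ W
    · rw [if_pos hj]
      refine gs_white ha hb hab hQ ?_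
      have h3 := (mem_filter.1 hj).2
      have h4 : (v * ((a : ℤ) - (b : ℤ))) • st P q (j + 1) (m - j) =
          (((((a : ℤ) - (b : ℤ) : ℤ) : ℝ) * ((v : ℝ) * ((P : ℝ) ^ (j + 1) / (q : ℝ) ^ (m - j))) : ℝ) :
            UnitAddCircle) := by
        rw [st, ← AddCircle.coe_zsmul, zsmul_eq_mul]
        congr 1
        push_cast
        ring
      rw [← h4]
      exact h3
    · rw [if_neg hj, mul_one]
      exact gs_le A _
  calc ∏ j ∈ range m, gs A ((v : ℝ) * ((P : ℝ) ^ (j + 1) / (q : ℝ) ^ (m - j)))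
      ≤ ∏ j ∈ range m, ((A.card : ℝ) * (if j ∈ W then Real.exp (-c) else 1)) :=
        prod_le_prod (fun j _ => gs_nonneg A _) hfac
    _ = (A.card : ℝ) ^ m * Real.exp (-c) ^ W.card := by
        rw [prod_mul_distrib, prod_const, card_range, prod_ite, prod_const, prod_const_one, mul_one]
        congr 3
        ext j
        rw [mem_filter]
        exact ⟨fun h => h.2, fun h => ⟨(mem_filter.1 h).1, h⟩⟩
    _ ≤ (A.card : ℝ) ^ m * Real.exp (-(c * (J * K))) := by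
        refine mul_le_mul_of_nonneg_left ?_ (by positivity)
        rw [← Real.exp_nat_mul]
        refine Real.exp_le_exp.2 ?_
        have h5 : ((J * K : ℕ) : ℝ) ≤ W.card := by exact_mod_cast hWc
        push_cast at h5
        nlinarith

end Pool.Agent.Lib.MP_b27257_nt.BT
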