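import Pool.Agent.Lib.MP_b27257_nt.BT.B11

/-! Row bt-B12: the sum over the frequencies. -/

namespace Pool.Agent.Lib.MP_b27257_nt.BT

open Finset

open Classical in
/-- Abstract form: a nonnegative function of the difference, at most `M` everywhere and at most `E` outside `Ex`. -/
theorem b12_sum_aux (F : ℤ → ℝ) (Ex : Finset ℤ) (V : ℕ) {M E W : ℝ} (hM : 0 ≤ M) (hE : 0 ≤ E)
    (hF : ∀ v, F v ≤ M) (hF' : ∀ v ∈ Ioo (-(V : ℤ)) V, v ∉ Ex → F v ≤ E) (hEx : (Ex.card : ℝ) ≤ W) :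
    ∑ c ∈ range V, ∑ c' ∈ range V, F ((c' : ℤ) - (c : ℤ)) ≤ M * (V * W) + (V : ℝ) ^ 2 * E := by
  have key : ∀ c ∈ range V, ∑ c' ∈ range V, F ((c' : ℤ) - (c : ℤ)) ≤ M * W + V * E := by
    intro c hc
    rw [mem_range] at hc
    have h1 : ∀ c' ∈ range V, F ((c' : ℤ) - (c : ℤ)) ≤
        (if ((c' : ℤ) - (c : ℤ)) ∈ Ex then M else 0) + E := by
      intro c' hc'
      rw [mem_range] at hc'
      split_ifs with h
      · linarith [hF ((c' : ℤ) - (c : ℤ))]
      · have : ((c' : ℤ) - (c : ℤ)) ∈ Ioo (-(V : ℤ)) V := by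
          rw [mem_Ioo]
          constructor <;> omega
        linarith [hF' _ this h]
    refine (sum_le_sum h1).trans ?_
    rw [sum_add_distrib, sum_const, card_range, nsmul_eq_mul, ← sum_filter, sum_const, nsmul_eq_mul]
    have h2 : (((range V).filter fun c' : ℕ => ((c' : ℤ) - (c : ℤ)) ∈ Ex).card : ℝ) ≤ Ex.card := by
      have : ((range V).filter fun c' : ℕ => ((c' : ℤ) - (c : ℤ)) ∈ Ex).card ≤ Ex.card := by
        apply card_le_card_of_injOn (fun c' : ℕ => ((c' : ℤ) - (c : ℤ)))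
        · intro x hx
          have := (mem_filter.1 (mem_coe.1 hx)).2
          exact mem_coe.2 this
        · intro x _ y _ hxy
          simp only [sub_left_inj, Nat.cast_inj] at hxy
          exact hxy
      exact_mod_cast this
    have h3 : (((range V).filter fun c' : ℕ => ((c' : ℤ) - (c : ℤ)) ∈ Ex).card : ℝ) * M ≤ M * W := by
      rw [mul_comm]
      exact mul_le_mul_of_nonneg_left (h2.trans hEx) hM
    linarith
  refine (sum_le_sum key).trans ?_
  rw [sum_const, card_range, nsmul_eq_mul]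
  apply le_of_eq
  ring

open Classical in
/-- For `b` fixed, `b' ↦ b' - b` is injective into `Ioo (-V) V`. The pairs with `b' - b` exceptional in some segment
`k < J` are at most `V * (J * B)`, for them the product is at most `|A|^m`; for the others use `prod_gs_le`. -/
theorem sum_freq_le {A : Finset ℕ} {a b : ℕ} (ha : a ∈ A) (hb : b ∈ A) (hab : a ≠ b) {Q : ℕ} (hQ : 2 ≤ Q)
    {P : ℤ} {q m ℓ J K V : ℕ} (hJ : J * ℓ ≤ m) {B : ℝ}
    (hB : ∀ k < J, (((Ioo (-(V : ℤ)) V).filter fun v =>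
      (wh P q m Q (k * ℓ) ℓ (v * ((a : ℤ) - (b : ℤ)))).card ≤ K).card : ℝ) ≤ B) :
    ∑ c ∈ range V, ∑ c' ∈ range V,
        ∏ j ∈ range m, gs A ((((c' : ℤ) - (c : ℤ) : ℤ) : ℝ) * ((P : ℝ) ^ (j + 1) / (q : ℝ) ^ (m - j))) ≤
      (A.card : ℝ) ^ m * (V * (J * B) + (V : ℝ) ^ 2 * Real.exp (-(4 / ((Q : ℝ) ^ 2 * A.card) * (J * K)))) := by
  set Ex : Finset ℤ := (range J).biUnion fun k => (Ioo (-(V : ℤ)) V).filter fun v =>
      (wh P q m Q (k * ℓ) ℓ (v * ((a : ℤ) - (b : ℤ)))).card ≤ K with hExdef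
  have hEx : (Ex.card : ℝ) ≤ J * B := by
    have h1 : (Ex.card : ℝ) ≤ ∑ k ∈ range J, (((Ioo (-(V : ℤ)) V).filter fun v =>
      (wh P q m Q (k * ℓ) ℓ (v * ((a : ℤ) - (b : ℤ)))).card ≤ K).card : ℝ) := by
      rw [← Nat.cast_sum, Nat.cast_le]
      exact card_biUnion_le
    refine h1.trans ?_
    refine (sum_le_sum fun k hk => hB k (mem_range.1 hk)).trans ?_
    rw [sum_const, card_range, nsmul_eq_mul]
  have h := b12_sum_aux
    (fun v : ℤ => ∏ j ∈ range m, gs A ((v : ℝ) * ((P : ℝ) ^ (j + 1) / (q : ℝ) ^ (m - j)))) Ex V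
    (M := (A.card : ℝ) ^ m)
    (E := (A.card : ℝ) ^ m * Real.exp (-(4 / ((Q : ℝ) ^ 2 * A.card) * (J * K)))) (W := J * B)
    (by positivity) (by positivity)
    (fun v => by
      calc ∏ j ∈ range m, gs A ((v : ℝ) * ((P : ℝ) ^ (j + 1) / (q : ℝ) ^ (m - j)))
          ≤ ∏ j ∈ range m, (A.card : ℝ) := prod_le_prod (fun _ _ => gs_nonneg _ _) fun _ _ => gs_le _ _
        _ = (A.card : ℝ) ^ m := by rw [prod_const, card_range])
    (fun v hv hvE => by
      refine prod_gs_le ha hb hab hQ hJ v fun k hk => ?_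
      by_contra hlt
      push Not at hlt
      apply hvE
      rw [hExdef, mem_biUnion]
      exact ⟨k, mem_range.2 hk, mem_filter.2 ⟨hv, hlt.le⟩⟩)
    hEx
  refine h.trans (le_of_eq ?_)
  ring

end Pool.Agent.Lib.MP_b27257_nt.BT
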