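import Pool.Agent.Lib.MP_b27257_nt.BT.B05
import Pool.Agent.Lib.MP_b27257_nt.BT.B06
import Pool.Agent.Lib.MP_b27257_nt.BT.B07

/-! Row bt-B13: exceptional frequencies of one segment. -/

namespace Pool.Agent.Lib.MP_b27257_nt.BT

open Finset

open Classical in
/-- `card_few_white` with `V = Ioo (-V) V`, `x j v = (v * D) • st P q (t + j + 1) (m - (t + j))`, `K = ⌊ω ℓ⌋`,
`exists_omega`. The separation: if `v ≠ v'` and `‖x j v - x j v'‖ ≤ 2/Q` for all `j < ℓ` then `w = (v - v') D`,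
`0 < |w| ≤ 2 V |D|`, is black (`η = 2/Q`, `2 η < 1/p` since `Q = 8 p`), against `no_black`. -/
theorem few_exceptional {p q : ℕ} (hq : 1 < q) (hqp : q < p) (hpq : Nat.Coprime p q) {κ : ℝ} (hκ : 0 < κ) :
    ∃ ω : ℝ, 0 < ω ∧ ∀ C ε : ℝ, 0 < ε → ∃ h0 : ℕ, ∀ h : ℕ, h0 ≤ h → ∀ m : ℕ, (m : ℝ) ≤ C * h →
    ∀ P : ℤ, P * p ≡ 1 [ZMOD (q : ℤ) ^ m] → ∀ D : ℤ, D ≠ 0 → ∀ V t ℓ K : ℕ, 1 ≤ ℓ → t + ℓ ≤ m →
    2 * (V : ℝ) * |(D : ℝ)| * Real.exp (ε * h) ≤ (p : ℝ) ^ (ℓ - 1) →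
    2 * (V : ℝ) * |(D : ℝ)| * Real.exp (ε * h) ≤ (q : ℝ) ^ (m - t) → (K : ℝ) ≤ ω * ℓ →
      (((Ioo (-(V : ℤ)) V).filter fun v => (wh P q m (8 * p) t ℓ (v * D)).card ≤ K).card : ℝ) ≤
        Real.exp (κ * ℓ) := by
  have hp0 : 0 < p := by omega
  have hQ : 1 ≤ 8 * p := by omega
  have hpR : (0 : ℝ) < p := by exact_mod_cast hp0
  obtain ⟨ω, y, hω, hy0, hy1, hωy⟩ := exists_omega (8 * p) hQ hκ
  refine ⟨ω, hω, fun C ε hε => ?_⟩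
  have hη0 : (0 : ℝ) ≤ 2 / ((8 * p : ℕ) : ℝ) := by positivity
  have hη : 2 * (2 / ((8 * p : ℕ) : ℝ)) < 1 / p := by
    push_cast
    rw [← mul_div_assoc, div_lt_div_iff₀ (by positivity) hpR]
    nlinarith
  obtain ⟨h0, hh0⟩ := no_black hq hqp hpq C ε hε hη0 hη
  refine ⟨h0, fun h hh m hm P hP D hD V t ℓ K hℓ htℓ h1 h2 hK => ?_⟩
  refine le_trans ?_ (hωy ℓ K hK)
  refine card_few_white hQ (Ioo (-(V : ℤ)) V)
    (fun j v => (v * D) • st P q (t + j + 1) (m - (t + j))) ?_ hy0 hy1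
  intro v hv v' hv' hall
  by_contra hne
  have hw : (v - v') * D ≠ 0 := mul_ne_zero (sub_ne_zero.2 hne) hD
  rw [mem_Ioo] at hv hv'
  have hvv : |((v - v' : ℤ) : ℝ)| ≤ 2 * (V : ℝ) := by
    have h3 : |v - v'| ≤ 2 * (V : ℤ) := by
      rw [abs_le]
      constructor <;> linarith [hv.1, hv.2, hv'.1, hv'.2]
    calc |((v - v' : ℤ) : ℝ)| = ((|v - v'| : ℤ) : ℝ) := by push_cast; rfl
      _ ≤ ((2 * (V : ℤ) : ℤ) : ℝ) := by exact_mod_cast h3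
      _ = 2 * (V : ℝ) := by push_cast; ring
  have hwabs : |(((v - v') * D : ℤ) : ℝ)| ≤ 2 * (V : ℝ) * |(D : ℝ)| := by
    rw [Int.cast_mul, abs_mul]
    exact mul_le_mul_of_nonneg_right hvv (abs_nonneg _)
  have hexp : 0 ≤ Real.exp (ε * h) := (Real.exp_pos _).le
  obtain ⟨j, hj, hjw⟩ := hh0 h hh m hm P hP ((v - v') * D) hw t ℓ hℓ htℓ
    (le_trans (mul_le_mul_of_nonneg_right hwabs hexp) h1)
    (le_trans (mul_le_mul_of_nonneg_right hwabs hexp) h2)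
  have h4 := hall j hj
  have h5 : (v * D) • st P q (t + j + 1) (m - (t + j)) - (v' * D) • st P q (t + j + 1) (m - (t + j)) =
      ((v - v') * D) • st P q (t + j + 1) (m - (t + j)) := by
    rw [← sub_smul, ← sub_mul]
  have h6 : ‖((v - v') * D) • st P q (t + j + 1) (m - (t + j))‖ ≤ 2 / ((8 * p : ℕ) : ℝ) := by
    rw [← h5]
    exact h4
  exact absurd hjw (not_lt.2 h6)

end Pool.Agent.Lib.MP_b27257_nt.BT
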