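import Pool.Agent.Lib.MP_b27257_nt.BT.B09
import Pool.Agent.Lib.MP_b27257_nt.BT.B10
import Pool.Agent.Lib.MP_b27257_nt.BT.B12
import Pool.Agent.Lib.MP_b27257_nt.BT.B13

/-! Row bt-B14: the count at the scale q^h. -/

namespace Pool.Agent.Lib.MP_b27257_nt.BT

open Finset

theorem b14_exp {lam L κ ω c4 ε : ℝ} (hlam : 0 < lam) (hL : lam < L) (hκ : κ = (L - lam) / 2) (hω : 0 < ω)
    (hc4 : 0 < c4) (hε : 0 < ε) (hε8 : ε ≤ 1 / 8) (hε2 : lam * ε ≤ c4 * ω / 8) :
    ∃ C : ℝ, 0 ≤ C ∧ ∀ h e ℓ J K : ℕ, (e : ℝ) ≤ ε * h → ε * h < e + 1 → ℓ = e + 1 → J * (2 * ℓ) ≤ h →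
      h < (J + 1) * (2 * ℓ) → ω * ℓ < K + 1 →
      2 * Real.exp (lam * (h + e)) *
        (J * Real.exp (κ * ℓ) / Real.exp (L * (e - 3)) + Real.exp (-(c4 * (J * K)))) ≤
        C * Real.exp ((lam - min ((L - lam) * ε / 8) (c4 * ω / 8)) * h) := by
  set a : ℝ := (L - lam) * ε / 8 with ha
  set δ : ℝ := min a (c4 * ω / 8) with hδ
  have ha0 : 0 < a := by
    have : 0 < L - lam := by linarith
    positivity
  have hδa : δ ≤ a := min_le_left _ _
  have hδc : δ ≤ c4 * ω / 8 := min_le_right _ _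
  refine ⟨2 / a * Real.exp ((L - lam) / 2 + κ + 3 * L) + 2 * Real.exp (c4 * (ω + 1 / (2 * ε))),
    by positivity, ?_⟩
  intro h e ℓ J K he he1 hℓ hJ hJ1 hK
  have hh0 : (0 : ℝ) ≤ h := Nat.cast_nonneg h
  have hJ0 : (0 : ℝ) ≤ J := Nat.cast_nonneg J
  have hℓr : (ℓ : ℝ) = e + 1 := by rw [hℓ]; push_cast; ring
  have hℓ1 : (1 : ℝ) ≤ ℓ := by rw [hℓr]; have := Nat.cast_nonneg (α := ℝ) e; linarith
  have hJr : (J : ℝ) * (2 * ℓ) ≤ h := by exact_mod_cast hJ
  have hJ1r : (h : ℝ) < (J + 1) * (2 * ℓ) := by exact_mod_cast hJ1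
  have hJh : (J : ℝ) ≤ h := by nlinarith
  -- first term
  have hfirst : 2 * Real.exp (lam * (h + e)) * (J * Real.exp (κ * ℓ) / Real.exp (L * (e - 3))) ≤
      2 / a * Real.exp ((L - lam) / 2 + κ + 3 * L) * Real.exp ((lam - δ) * h) := by
    have h1 : (J : ℝ) ≤ 1 / a * Real.exp (a * h) := by
      have h2 := Real.add_one_le_exp (a * h)
      have h3 : (h : ℝ) ≤ 1 / a * Real.exp (a * h) := by
        rw [div_mul_eq_mul_div, le_div_iff₀ ha0]
        linarith
      linarith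
    have h4 : 2 * Real.exp (lam * (h + e)) * (J * Real.exp (κ * ℓ) / Real.exp (L * (e - 3))) =
        2 * J * Real.exp (lam * (h + e) + κ * ℓ - L * (e - 3)) := by
      rw [Real.exp_sub, Real.exp_add]
      ring
    rw [h4]
    calc 2 * (J : ℝ) * Real.exp (lam * (h + e) + κ * ℓ - L * (e - 3)) ≤
        2 * (1 / a * Real.exp (a * h)) * Real.exp (lam * (h + e) + κ * ℓ - L * (e - 3)) := by
          gcongr
      _ = 2 / a * Real.exp (a * h + (lam * (h + e) + κ * ℓ - L * (e - 3))) := by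
          rw [Real.exp_add (a * h)]; ring
      _ ≤ 2 / a * Real.exp (((L - lam) / 2 + κ + 3 * L) + (lam - δ) * h) := by
          refine mul_le_mul_of_nonneg_left (Real.exp_le_exp.2 ?_) (by positivity)
          rw [hℓr, hκ]
          have h5 : (L - lam) / 2 * (ε * h - 1) ≤ (L - lam) / 2 * e := by
            apply mul_le_mul_of_nonneg_left _ (by linarith)
            linarith
          have h6 : (L - lam) / 2 * (ε * h) = 4 * a * h := by rw [ha]; ring
          have h7 : δ * h ≤ a * h := mul_le_mul_of_nonneg_right hδa hh0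
          have h8 : 0 ≤ a * h := by positivity
          nlinarith
      _ = _ := by rw [Real.exp_add]; ring
  have hsecond : 2 * Real.exp (lam * (h + e)) * Real.exp (-(c4 * (J * K))) ≤
      2 * Real.exp (c4 * (ω + 1 / (2 * ε))) * Real.exp ((lam - δ) * h) := by
    have h1 : 2 * Real.exp (lam * (h + e)) * Real.exp (-(c4 * (J * K))) =
        2 * Real.exp (lam * (h + e) + -(c4 * (J * K))) := by rw [Real.exp_add]; ring
    have h2 : 2 * Real.exp (c4 * (ω + 1 / (2 * ε))) * Real.exp ((lam - δ) * h) =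
        2 * Real.exp (c4 * (ω + 1 / (2 * ε)) + (lam - δ) * h) := by rw [Real.exp_add]; ring
    rw [h1, h2]
    refine mul_le_mul_of_nonneg_left (Real.exp_le_exp.2 ?_) (by positivity)
    have h3 : (J : ℝ) ≤ 1 / (2 * ε) := by
      rw [le_div_iff₀ (by positivity)]
      by_contra hcon
      push Not at hcon
      have hJp : (0 : ℝ) < J := by
        by_contra h0
        have : (J : ℝ) = 0 := le_antisymm (not_lt.1 h0) hJ0
        rw [this] at hcon; linarith
      have h4 : ε * (J * (2 * ℓ)) ≤ ε * h := mul_le_mul_of_nonneg_left hJr hε.le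
      have h5 : (1 : ℝ) * ℓ < (J * (2 * ε)) * ℓ := by
        apply mul_lt_mul_of_pos_right hcon (by linarith)
      rw [hℓr] at h5 h4
      nlinarith
    have h4 : ω * (h / 2 - ℓ) - 1 / (2 * ε) ≤ J * K := by
      have h5 : (J : ℝ) * (ω * ℓ - 1) ≤ J * K := mul_le_mul_of_nonneg_left (by linarith) hJ0
      have h6 : ω * (h / 2 - ℓ) ≤ ω * (J * ℓ) := mul_le_mul_of_nonneg_left (by linarith) hω.le
      nlinarith
    have h5 : (ℓ : ℝ) ≤ ε * h + 1 := by rw [hℓr]; linarith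
    have h6 : ω * ℓ ≤ ω * (ε * h + 1) := mul_le_mul_of_nonneg_left h5 hω.le
    have h7 : ω * (ε * h) ≤ ω * (1 / 8 * h) := by gcongr
    have h8 : ω * h / 4 - ω - 1 / (2 * ε) ≤ J * K := by
      have : 0 ≤ ω * h := by positivity
      nlinarith
    have h9 : c4 * (ω * h / 4 - ω - 1 / (2 * ε)) ≤ c4 * (J * K) := mul_le_mul_of_nonneg_left h8 hc4.le
    have h10 : lam * e ≤ lam * (ε * h) := mul_le_mul_of_nonneg_left he hlam.le
    have h11 : lam * ε * h ≤ c4 * ω / 8 * h := mul_le_mul_of_nonneg_right hε2 hh0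
    have h12 : δ * h ≤ c4 * ω / 8 * h := mul_le_mul_of_nonneg_right hδc hh0
    nlinarith
  calc _ = 2 * Real.exp (lam * (h + e)) * (J * Real.exp (κ * ℓ) / Real.exp (L * (e - 3))) +
      2 * Real.exp (lam * (h + e)) * Real.exp (-(c4 * (J * K))) := by ring
    _ ≤ _ := by
      refine (add_le_add hfirst hsecond).trans (le_of_eq ?_)
      ring

theorem b14_pow {a : ℕ} (ha : 0 < a) (n : ℕ) : (a : ℝ) ^ n = Real.exp (Real.log a * n) := by
  rw [mul_comm, Real.exp_nat_mul, Real.exp_log (by exact_mod_cast ha)]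

theorem b14_inv {p q : ℕ} (hpq : Nat.Coprime p q) (m : ℕ) : ∃ P : ℤ, P * p ≡ 1 [ZMOD (q : ℤ) ^ m] := by
  have h : IsCoprime (p : ℤ) ((q : ℤ) ^ m) := (Nat.isCoprime_iff_coprime.2 hpq).pow_right
  obtain ⟨a, b, hab⟩ := h
  exact ⟨a, (Int.modEq_iff_dvd.2 ⟨b, by linear_combination (-1 : ℤ) * hab⟩)⟩

/-- `L = log q`, `λ = log |S| < L`, `κ = (L - λ)/2`, `ω` from `few_exceptional`, `Q = 8 p`,
`c2 = ω/(Q² |S|)`, `ε = min (1/8) (c2/(2 λ))`, `ε1 = ε log(p/q)/2` (also `≤ L/4`). For `h` large put `e = ⌊ε h⌋`,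
`m = h + e`, `V = q^(e-3)`, `N = q^h`, `ℓ = e + 1`, `J = ⌊h/(2ℓ)⌋`, `K = ⌊ω ℓ⌋`. `8 V N ≤ q^m`; `|D| < q`, so
`2 V |D| exp(ε1 h) ≤ q^(e-1) exp(ε1 h) ≤ p^e` (`(p/q)^e ≥ exp(ε1 h)`) and `≤ q^(m-t)` for `t ≤ h/2`. By
`fourier_count`, `survivors_le`, `sum_freq_le`, `few_exceptional` the number is at most
`2 |S|^m (J exp(κ ℓ)/V + exp(-(4/(Q²|S|)) J K))`, with `J K ≥ ω h/4 - ..`. Exponents: `λ (h + e) + κ (e+1) - L (e - 3)`
`≤ λ h - (L-λ) e/2 + C` and `λ h + λ ε h - c2 h + C ≤ λ h - c2 h/2 + C`. So `δ = min ((L-λ) ε/4) (c2/4)`. For small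
`h` the constant. -/
theorem count_scale {p q : ℕ} (hq : 1 < q) (hqp : q < p) (hpq : Nat.Coprime p q) {S : Finset ℕ}
    (hS : S ⊂ range q) (hS2 : 2 ≤ S.card) : ∃ δ C : ℝ, 0 < δ ∧ 0 ≤ C ∧ ∀ h : ℕ,
      (Set.ncard {x : ℕ | 1 ≤ x ∧ x ≤ q ^ h ∧ ∀ n < 2 * h, (T p q)^[n] x % q ∈ S} : ℝ) ≤
        C * Real.exp ((Real.log S.card - δ) * h) := by
  classical
  have hAcard : (dg p q S).card = S.card := dg_card hq hpq hS.subset
  have hsq : S.card < q := by
    have := Finset.card_lt_card hS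
    rwa [card_range] at this
  have hq0 : 0 < q := by omega
  have hs0 : 0 < S.card := by omega
  have hqR : (0 : ℝ) < q := by exact_mod_cast hq0
  have hpR : (0 : ℝ) < p := by exact_mod_cast (by omega : 0 < p)
  have hlam : 0 < Real.log S.card := Real.log_pos (by exact_mod_cast (by omega : 1 < S.card))
  have hL : Real.log S.card < Real.log q :=
    Real.log_lt_log (by exact_mod_cast hs0) (by exact_mod_cast hsq)
  have hκ : 0 < (Real.log q - Real.log S.card) / 2 := by linarith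
  obtain ⟨ω, hω, hfe⟩ := few_exceptional hq hqp hpq hκ
  obtain ⟨c4, hc4⟩ : ∃ c4 : ℝ, c4 = 4 / (((8 * p : ℕ) : ℝ) ^ 2 * (dg p q S).card) := ⟨_, rfl⟩
  have hc40 : 0 < c4 := by
    have h1 : (0 : ℝ) < ((8 * p : ℕ) : ℝ) := by exact_mod_cast (by omega : 0 < 8 * p)
    have h2 : (0 : ℝ) < (dg p q S).card := by rw [hAcard]; exact_mod_cast hs0
    rw [hc4]; positivity
  obtain ⟨ε, hε, hε8, hε2⟩ : ∃ ε : ℝ, 0 < ε ∧ ε ≤ 1 / 8 ∧ Real.log S.card * ε ≤ c4 * ω / 8 := by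
    refine ⟨min (1 / 8) (c4 * ω / 8 / Real.log S.card), lt_min (by norm_num) (by positivity),
      min_le_left _ _, ?_⟩
    calc Real.log S.card * min (1 / 8) (c4 * ω / 8 / Real.log S.card) ≤
        Real.log S.card * (c4 * ω / 8 / Real.log S.card) :=
          mul_le_mul_of_nonneg_left (min_le_right _ _) hlam.le
      _ = c4 * ω / 8 := by field_simp
  have hR : 0 < Real.log p - Real.log q := by
    have := Real.log_lt_log hqR (by exact_mod_cast hqp : (q : ℝ) < p)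
    linarith
  have hL0 : 0 < Real.log q := by linarith
  obtain ⟨ε1, hε1, hε1a, hε1b⟩ : ∃ ε1 : ℝ, 0 < ε1 ∧ ε1 ≤ ε / 2 * (Real.log p - Real.log q) ∧
      ε1 ≤ Real.log q / 2 :=
    ⟨min (ε / 2 * (Real.log p - Real.log q)) (Real.log q / 2), lt_min (by positivity) (by positivity),
      min_le_left _ _, min_le_right _ _⟩
  obtain ⟨h0, hfe'⟩ := hfe 2 ε1 hε1
  obtain ⟨C1, hC1, hexp⟩ := b14_exp hlam hL rfl hω hc40 hε hε8 hε2
  obtain ⟨δ, hδ⟩ : ∃ δ : ℝ, δ = min ((Real.log q - Real.log S.card) * ε / 8) (c4 * ω / 8) := ⟨_, rfl⟩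
  rw [← hδ] at hexp
  have hδ0 : 0 < δ := by
    rw [hδ]
    exact lt_min (by have : 0 < Real.log q - Real.log S.card := by linarith
                     positivity) (by positivity)
  obtain ⟨h1, hh1⟩ : ∃ h1 : ℕ, h1 = max h0 ⌈4 / ε⌉₊ := ⟨_, rfl⟩
  refine ⟨δ, C1 + (q : ℝ) ^ h1 * Real.exp (δ * h1), hδ0, by positivity, ?_⟩
  intro h
  have hfin : ({x : ℕ | 1 ≤ x ∧ x ≤ q ^ h}).Finite :=
    (Set.finite_Icc 1 (q ^ h)).subset fun x hx => hx
  rcases lt_or_ge h h1 with hlt | hge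
  · have hb1 : Set.ncard {x : ℕ | 1 ≤ x ∧ x ≤ q ^ h ∧ ∀ n < 2 * h, (T p q)^[n] x % q ∈ S} ≤ q ^ h := by
      calc Set.ncard {x : ℕ | 1 ≤ x ∧ x ≤ q ^ h ∧ ∀ n < 2 * h, (T p q)^[n] x % q ∈ S} ≤
          Set.ncard (Set.Icc 1 (q ^ h)) :=
            Set.ncard_le_ncard (fun x hx => ⟨hx.1, hx.2.1⟩) (Set.finite_Icc _ _)
        _ = q ^ h := by
          rw [← Finset.coe_Icc, Set.ncard_coe_finset, Nat.card_Icc]; omega
    have hb2 : (Set.ncard {x : ℕ | 1 ≤ x ∧ x ≤ q ^ h ∧ ∀ n < 2 * h, (T p q)^[n] x % q ∈ S} : ℝ) ≤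
        (q : ℝ) ^ h1 := by
      calc _ ≤ ((q ^ h : ℕ) : ℝ) := by exact_mod_cast hb1
        _ = (q : ℝ) ^ h := by push_cast; rfl
        _ ≤ (q : ℝ) ^ h1 := pow_le_pow_right₀ (by exact_mod_cast hq.le) hlt.le
    have hb3 : 1 ≤ Real.exp (δ * h1) * Real.exp ((Real.log S.card - δ) * h) := by
      rw [← Real.exp_add]
      apply Real.one_le_exp
      have h2 : (h : ℝ) ≤ h1 := by exact_mod_cast hlt.le
      have h3 : δ * h ≤ δ * h1 := mul_le_mul_of_nonneg_left h2 hδ0.le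
      have h4 : 0 ≤ Real.log S.card * h := by positivity
      nlinarith
    calc _ ≤ (q : ℝ) ^ h1 := hb2
      _ ≤ (q : ℝ) ^ h1 * (Real.exp (δ * h1) * Real.exp ((Real.log S.card - δ) * h)) :=
          le_mul_of_one_le_right (by positivity) hb3
      _ = (q : ℝ) ^ h1 * Real.exp (δ * h1) * Real.exp ((Real.log S.card - δ) * h) := by ring
      _ ≤ _ := by
        refine mul_le_mul_of_nonneg_right ?_ (Real.exp_nonneg _)
        linarith
  · -- main case
    have hhh0 : h0 ≤ h := (le_max_left _ _).trans (hh1 ▸ hge)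
    have hεh : 4 ≤ ε * h := by
      have h2 : (4 / ε : ℝ) ≤ h :=
        (Nat.le_ceil _).trans (by exact_mod_cast (le_max_right h0 _).trans (hh1 ▸ hge))
      rw [div_le_iff₀ hε] at h2
      linarith
    obtain ⟨e, he⟩ : ∃ e : ℕ, e = ⌊ε * h⌋₊ := ⟨_, rfl⟩
    have he1 : (e : ℝ) ≤ ε * h := by rw [he]; exact Nat.floor_le (by positivity)
    have he2 : ε * h < e + 1 := by rw [he]; exact Nat.lt_floor_add_one _
    have he3 : 3 ≤ e := by
      rw [he]; exact Nat.le_floor (by push_cast; linarith)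
    have heh : e ≤ h := by
      have h2 : (e : ℝ) ≤ h := by
        have : ε * h ≤ 1 / 8 * h := mul_le_mul_of_nonneg_right hε8 (Nat.cast_nonneg _)
        have h3 : (0 : ℝ) ≤ h := Nat.cast_nonneg _
        linarith
      exact_mod_cast h2
    obtain ⟨J, hJ⟩ : ∃ J : ℕ, J = h / (2 * (e + 1)) := ⟨_, rfl⟩
    obtain ⟨K, hK⟩ : ∃ K : ℕ, K = ⌊ω * ((e + 1 : ℕ) : ℝ)⌋₊ := ⟨_, rfl⟩
    have hJ1 : J * (2 * (e + 1)) ≤ h := by rw [hJ]; exact Nat.div_mul_le_self _ _
    have hJ2 : h < (J + 1) * (2 * (e + 1)) := by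
      rw [hJ]
      exact (Nat.div_lt_iff_lt_mul (by positivity)).1 (Nat.lt_succ_self _)
    have hK1 : (K : ℝ) ≤ ω * ((e + 1 : ℕ) : ℝ) := by rw [hK]; exact Nat.floor_le (by positivity)
    have hK2 : ω * ((e + 1 : ℕ) : ℝ) < K + 1 := by rw [hK]; exact Nat.lt_floor_add_one _
    have hmain := hexp h e (e + 1) J K he1 he2 rfl hJ1 hJ2 hK2
    obtain ⟨P, hP⟩ := b14_inv hpq (h + e)
    obtain ⟨a1, ha1, a2, ha2, hne⟩ := Finset.one_lt_card.1 (by omega : 1 < (dg p q S).card)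
    have ha1q : a1 < q := Finset.mem_range.1 (Finset.mem_filter.1 ha1).1
    have ha2q : a2 < q := Finset.mem_range.1 (Finset.mem_filter.1 ha2).1
    have hD : (a1 : ℤ) - (a2 : ℤ) ≠ 0 := by
      intro h2; exact hne (by exact_mod_cast sub_eq_zero.1 h2)
    have hDabs : |(((a1 : ℤ) - (a2 : ℤ) : ℤ) : ℝ)| ≤ q := by
      rw [abs_le]; push_cast
      have h2 : (a1 : ℝ) < q := by exact_mod_cast ha1q
      have h3 : (a2 : ℝ) < q := by exact_mod_cast ha2q
      have h4 : (0 : ℝ) ≤ a1 := Nat.cast_nonneg _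
      have h5 : (0 : ℝ) ≤ a2 := Nat.cast_nonneg _
      constructor <;> linarith
    -- the set
    have hsub : Set.ncard {x : ℕ | 1 ≤ x ∧ x ≤ q ^ h ∧ ∀ n < 2 * h, (T p q)^[n] x % q ∈ S} ≤
        Set.ncard {x : ℕ | 1 ≤ x ∧ x ≤ q ^ h ∧ ∀ n < h + e, (T p q)^[n] x % q ∈ S} := by
      apply Set.ncard_le_ncard
      · intro x hx
        exact ⟨hx.1, hx.2.1, fun n hn => hx.2.2 n (by omega)⟩
      · exact hfin.subset fun x hx => ⟨hx.1, hx.2.1⟩
    have hNm : q ^ h < q ^ (h + e) := Nat.pow_lt_pow_right hq (by omega)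
    have hsurv := survivors_le hq hqp hpq hS.subset hP hNm
    have hV8 : 8 * q ^ (e - 3) * q ^ h ≤ q ^ (h + e) := by
      have h2 : q ^ (h + e) = q ^ 3 * q ^ (e - 3) * q ^ h := by
        rw [← pow_add, ← pow_add]; congr 1; omega
      rw [h2]
      have h3 : 8 ≤ q ^ 3 := by
        calc 8 = 2 ^ 3 := by norm_num
          _ ≤ q ^ 3 := Nat.pow_le_pow_left (by omega) 3
      gcongr
    have hfour := fourier_count (N := q ^ h) hq0 P (dg p q S) hV8
    have hJm : J * (e + 1) ≤ h + e := by nlinarith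
    have hVexp : ((q ^ (e - 3) : ℕ) : ℝ) = Real.exp (Real.log q * (e - 3)) := by
      push_cast
      rw [b14_pow hq0, Nat.cast_sub he3]; norm_num
    have hV0 : (0 : ℝ) < ((q ^ (e - 3) : ℕ) : ℝ) := by positivity
    -- exponential conditions
    have hqe : 2 * ((q ^ (e - 3) : ℕ) : ℝ) * |(((a1 : ℤ) - (a2 : ℤ) : ℤ) : ℝ)| ≤ (q : ℝ) ^ e := by
      have h2 : (q : ℝ) ^ e = (q : ℝ) ^ 2 * (q : ℝ) ^ (e - 3) * q := by
        rw [← pow_add, ← pow_succ]; congr 1; omega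
      rw [h2]
      have h3 : (2 : ℝ) ≤ (q : ℝ) ^ 2 := by
        have : (2 : ℝ) ≤ q := by exact_mod_cast hq
        nlinarith
      push_cast
      push_cast at hDabs
      gcongr
    have hB : ∀ k < J, (((Ioo (-((q ^ (e - 3) : ℕ) : ℤ)) ((q ^ (e - 3) : ℕ) : ℤ)).filter fun v =>
        (wh P q (h + e) (8 * p) (k * (e + 1)) (e + 1) (v * ((a1 : ℤ) - (a2 : ℤ)))).card ≤ K).card : ℝ) ≤
        Real.exp ((Real.log q - Real.log S.card) / 2 * ((e + 1 : ℕ) : ℝ)) := by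
      intro k hk
      have hkt : 2 * (k * (e + 1)) + 2 * (e + 1) ≤ h := by
        calc 2 * (k * (e + 1)) + 2 * (e + 1) = (k + 1) * (2 * (e + 1)) := by ring
          _ ≤ J * (2 * (e + 1)) := Nat.mul_le_mul_right _ hk
          _ ≤ h := hJ1
      refine hfe' h hhh0 (h + e) ?_ P hP _ hD (q ^ (e - 3)) (k * (e + 1)) (e + 1) K (by omega) (by omega)
        ?_ ?_ hK1
      · push_cast
        have : (e : ℝ) ≤ h := by exact_mod_cast heh
        linarith
      · calc _ ≤ (q : ℝ) ^ e * Real.exp (ε1 * h) := mul_le_mul_of_nonneg_right hqe (Real.exp_nonneg _)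
          _ ≤ (p : ℝ) ^ (e + 1 - 1) := by
            rw [Nat.add_sub_cancel, b14_pow hq0, b14_pow (by omega : 0 < p), ← Real.exp_add,
              Real.exp_le_exp]
            have h2 : ε / 2 * h ≤ e := by linarith
            have h3 : (Real.log p - Real.log q) * (ε / 2 * h) ≤ (Real.log p - Real.log q) * e :=
              mul_le_mul_of_nonneg_left h2 hR.le
            have h4 : ε1 * h ≤ ε / 2 * (Real.log p - Real.log q) * h :=
              mul_le_mul_of_nonneg_right hε1a (Nat.cast_nonneg _)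
            nlinarith
      · calc _ ≤ (q : ℝ) ^ e * Real.exp (ε1 * h) := mul_le_mul_of_nonneg_right hqe (Real.exp_nonneg _)
          _ ≤ (q : ℝ) ^ (h + e - k * (e + 1)) := by
            rw [b14_pow hq0, b14_pow hq0, ← Real.exp_add, Real.exp_le_exp]
            have h2 : (e : ℝ) + h / 2 ≤ ((h + e - k * (e + 1) : ℕ) : ℝ) := by
              have h3 : 2 * e + h ≤ 2 * (h + e - k * (e + 1)) := by omega
              have h4 : (2 : ℝ) * e + h ≤ 2 * ((h + e - k * (e + 1) : ℕ) : ℝ) := by exact_mod_cast h3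
              linarith
            have h3 : Real.log q * ((e : ℝ) + h / 2) ≤ Real.log q * ((h + e - k * (e + 1) : ℕ) : ℝ) :=
              mul_le_mul_of_nonneg_left h2 hL0.le
            have h4 : ε1 * h ≤ Real.log q / 2 * h := mul_le_mul_of_nonneg_right hε1b (Nat.cast_nonneg _)
            nlinarith
    have hsum := sum_freq_le ha1 ha2 hne (by omega : 2 ≤ 8 * p) hJm hB
    have hall := hfour.trans hsum
    rw [← hc4] at hall
    have hfinal : (Set.ncard {x : ℕ | 1 ≤ x ∧ x ≤ q ^ h ∧ ∀ n < 2 * h, (T p q)^[n] x % q ∈ S} : ℝ) ≤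
        2 * Real.exp (Real.log S.card * (h + e)) *
        (J * Real.exp ((Real.log q - Real.log S.card) / 2 * ((e + 1 : ℕ) : ℝ)) /
          Real.exp (Real.log q * (e - 3)) + Real.exp (-(c4 * (J * K)))) := by
      have hn := (Nat.cast_le (α := ℝ)).2 (hsub.trans hsurv)
      refine hn.trans ?_
      have hsm : ((dg p q S).card : ℝ) ^ (h + e) = Real.exp (Real.log S.card * (h + e)) := by
        rw [hAcard, b14_pow hs0]; push_cast; rfl
      rw [hsm] at hall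
      rw [← hVexp]
      have hV2 : (0 : ℝ) < ((q ^ (e - 3) : ℕ) : ℝ) ^ 2 / 2 := by positivity
      rw [← mul_le_mul_iff_left₀ hV2]
      refine (le_of_eq (by ring)).trans (hall.trans (le_of_eq ?_))
      field_simp
    refine hfinal.trans (hmain.trans ?_)
    refine mul_le_mul_of_nonneg_right ?_ (Real.exp_nonneg _)
    have : 0 ≤ (q : ℝ) ^ h1 * Real.exp (δ * h1) := by positivity
    linarith

end Pool.Agent.Lib.MP_b27257_nt.BT
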