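import Pool.Agent.Lib.MP_b27257_nt.BT.Defs

/-! Row bt-B15: one residue class. -/

namespace Pool.Agent.Lib.MP_b27257_nt.BT

open Finset

/-- If `q` divides `p y + a` and `a < q` then `q T(y) = p y + a`. -/
theorem b15_T {p q y a : ℕ} (hq : 0 < q) (ha : a < q) (h : q ∣ p * y + a) : q * T p q y = p * y + a := by
  obtain ⟨k, hk⟩ := h
  have h1 : T p q y = k := by
    unfold T
    apply Nat.div_eq_of_lt_le
    · have : k * q = q * k := Nat.mul_comm _ _
      omega
    · have : (k + 1) * q = q * k + q := by ring
      omega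
  rw [h1, hk]

/-- `S = {s}`: let `a < q`, `q ∣ p s + a`. If `T^n(x) % q = s` for all `n < m` then `q T(y) = p y + a` along the orbit,
so `(p - q) T^n(x) + a = (p/q)^n ((p - q) x + a)` and `q^m ∣ (p - q) x + a`, which is positive and less than
`p x + q ≤ 2 p x`; so `q^m ≤ 2 p x`. -/
theorem one_class {p q : ℕ} (hq : 1 < q) (hqp : q < p) (hpq : Nat.Coprime p q) (s : ℕ) {m x : ℕ} (hx : 1 ≤ x)
    (h : ∀ n < m, (T p q)^[n] x % q = s) : q ^ m ≤ 2 * p * x := by
  have hq0 : 0 < q := by omega
  obtain ⟨d, hd⟩ : ∃ d, p = q + d := ⟨p - q, by omega⟩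
  obtain ⟨a, haq, ha⟩ : ∃ a, a < q ∧ q ∣ p * s + a := by
    refine ⟨(q - p * s % q) % q, Nat.mod_lt _ hq0, ?_⟩
    have h1 : p * s % q < q := Nat.mod_lt _ hq0
    apply Nat.dvd_of_mod_eq_zero
    rw [Nat.add_mod, Nat.mod_mod]
    rw [← Nat.add_mod]
    have h2 : (p * s + (q - p * s % q)) = q * (p * s / q) + q := by
      have := Nat.div_add_mod (p * s) q
      omega
    rw [h2]
    simp
  have key : ∀ n, n ≤ m → q ^ n * (d * (T p q)^[n] x + a) = p ^ n * (d * x + a) := by
    intro n
    induction n with
    | zero => intro _; simp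
    | succ n ih =>
      intro hn
      have ih' := ih (by omega)
      have hs := h n (by omega)
      set y := (T p q)^[n] x with hy
      have hdiv : q ∣ p * y + a := by
        have h1 : y = q * (y / q) + s := by
          have := Nat.div_add_mod y q
          omega
        have h2 : p * y + a = q * (p * (y / q)) + (p * s + a) := by
          conv_lhs => rw [h1]
          ring
        rw [h2]
        exact Dvd.dvd.add (Dvd.intro _ rfl) ha
      have hT := b15_T hq0 haq hdiv
      rw [Function.iterate_succ_apply', ← hy]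
      calc q ^ (n + 1) * (d * T p q y + a) = q ^ n * (d * (q * T p q y) + q * a) := by ring
        _ = q ^ n * (d * (p * y + a) + q * a) := by rw [hT]
        _ = q ^ n * (d * y + a) * p := by
            rw [hd]
            ring
        _ = p ^ (n + 1) * (d * x + a) := by
            rw [ih']
            ring
  have hk := key m le_rfl
  have hdvd : q ^ m ∣ d * x + a := by
    have h1 : q ^ m ∣ p ^ m * (d * x + a) := ⟨_, hk.symm⟩
    exact (Nat.Coprime.pow m m hpq.symm).dvd_of_dvd_mul_left h1
  have hpos : 0 < d * x + a := by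
    have : 0 < d := by omega
    have : 0 < d * x := Nat.mul_pos this hx
    omega
  have hle := Nat.le_of_dvd hpos hdvd
  have h3 : d * x + a ≤ 2 * p * x := by
    have h4 : q ≤ q * x := Nat.le_mul_of_pos_right _ hx
    rw [hd]
    nlinarith
  omega

end Pool.Agent.Lib.MP_b27257_nt.BT
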