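import Pool.Agent.Lib.MP_b27257_nt.BT.B14
import Pool.Agent.Lib.MP_b27257_nt.BT.B15

/-! Row bt-B16: final form. -/

namespace Pool.Agent.Lib.MP_b27257_nt.BT

open Finset

theorem b16_pow {a : ℕ} (ha : 0 < a) (n : ℕ) : (a : ℝ) ^ n = Real.exp (Real.log a * n) := by
  rw [mul_comm, Real.exp_nat_mul, Real.exp_log (by exact_mod_cast ha)]

theorem b16_one {p q : ℕ} (hpq : Nat.Coprime p q) (hqp : q < p) (hq : 1 < q) (s : ℕ) :
    ∃ K : ℝ, ∀ N : ℕ, 2 ≤ N →
      {x : ℕ | 1 ≤ x ∧ x ≤ N ∧ ∀ n : ℕ, (n : ℝ) ≤ K * Real.log N → (T p q)^[n] x % q ∈ ({s} : Finset ℕ)} = ∅ := by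
  have hL : 0 < Real.log q := Real.log_pos (by exact_mod_cast hq)
  have hl2 : 0 < Real.log 2 := Real.log_pos (by norm_num)
  have h2p : (1 : ℝ) ≤ 2 * p := by
    have : (1 : ℝ) ≤ p := by exact_mod_cast (by omega : 1 ≤ p)
    linarith
  have hl2p : 0 ≤ Real.log (2 * p) := Real.log_nonneg h2p
  refine ⟨(1 + Real.log (2 * p) / Real.log 2) / Real.log q, ?_⟩
  intro N hN
  have hN2 : (2 : ℝ) ≤ N := by exact_mod_cast hN
  have hlN : Real.log 2 ≤ Real.log N := Real.log_le_log (by norm_num) hN2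
  rw [Set.eq_empty_iff_forall_notMem]
  rintro x ⟨hx1, hxN, hx⟩
  obtain ⟨K, hK⟩ : ∃ K : ℝ, K = (1 + Real.log (2 * p) / Real.log 2) / Real.log q := ⟨_, rfl⟩
  rw [← hK] at hx
  have hK0 : 0 ≤ K := by rw [hK]; positivity
  have hKN : 0 ≤ K * Real.log N := mul_nonneg hK0 (by linarith)
  have h1 := one_class hq hqp hpq s (m := ⌊K * Real.log N⌋₊ + 1) hx1 (by
    intro n hn
    have h2 : (n : ℝ) ≤ K * Real.log N :=
      (Nat.cast_le.2 (Nat.lt_succ_iff.1 hn)).trans (Nat.floor_le hKN)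
    exact Finset.mem_singleton.1 (hx n h2))
  have h2 : (q : ℝ) ^ (⌊K * Real.log N⌋₊ + 1) ≤ 2 * p * N := by
    calc (q : ℝ) ^ (⌊K * Real.log N⌋₊ + 1) ≤ 2 * p * x := by exact_mod_cast h1
      _ ≤ 2 * p * N := by gcongr
  have h3 : (2 * p * N : ℝ) < (q : ℝ) ^ (⌊K * Real.log N⌋₊ + 1) := by
    rw [b16_pow (by omega : 0 < q)]
    have h4 : (2 * p * N : ℝ) = Real.exp (Real.log (2 * p) + Real.log N) := by
      rw [Real.exp_add, Real.exp_log (by linarith), Real.exp_log (by linarith)]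
    rw [h4, Real.exp_lt_exp]
    have h5 : K * Real.log N < ((⌊K * Real.log N⌋₊ + 1 : ℕ) : ℝ) := by
      push_cast; exact Nat.lt_floor_add_one _
    have h6 : Real.log q * (K * Real.log N) < Real.log q * ((⌊K * Real.log N⌋₊ + 1 : ℕ) : ℝ) :=
      mul_lt_mul_of_pos_left h5 hL
    have h7 : Real.log q * (K * Real.log N) = Real.log N + Real.log (2 * p) * (Real.log N / Real.log 2) := by
      rw [hK]; field_simp
    have h8 : 1 ≤ Real.log N / Real.log 2 := by
      rw [le_div_iff₀ hl2]; linarith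
    have h9 : Real.log (2 * p) ≤ Real.log (2 * p) * (Real.log N / Real.log 2) :=
      le_mul_of_one_le_right hl2p h8
    linarith
  linarith

/-- If `|S| = 1` use `one_class`: with `K` large the set is empty, `θ = -1`. If `|S| ≥ 2` let `h = Nat.clog q N`,
`q^(h-1) < N ≤ q^h`; `count_scale`; `K = 4/log q + 2`-type so that `2 h ≤ K log N` for `N ≥ 2`;
`exp((λ - δ) h) ≤ C' N^((λ - δ)/L)` for `δ ≤ λ` (take `min`), `θ = (λ - δ)/L < λ/L`. -/
theorem beyond_trivial {p q : ℕ} (hpq : Nat.Coprime p q) (hqp : q < p) (hq : 1 < q) {S : Finset ℕ}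
    (hne : S.Nonempty) (hS : S ⊂ range q) : ∃ θ K C : ℝ, θ < Real.log S.card / Real.log q ∧ ∀ N : ℕ, 2 ≤ N →
      (Set.ncard {x : ℕ | 1 ≤ x ∧ x ≤ N ∧ ∀ n : ℕ, (n : ℝ) ≤ K * Real.log N → (T p q)^[n] x % q ∈ S} : ℝ) ≤
        C * (N : ℝ) ^ θ := by
  have hL : 0 < Real.log q := Real.log_pos (by exact_mod_cast hq)
  have hl2 : 0 < Real.log 2 := Real.log_pos (by norm_num)
  rcases Nat.lt_or_ge S.card 2 with h1 | h2
  · have hc : S.card = 1 := by
      have := Finset.card_pos.2 hne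
      omega
    obtain ⟨s, rfl⟩ := Finset.card_eq_one.1 hc
    obtain ⟨K, hK⟩ := b16_one hpq hqp hq s
    refine ⟨-1, K, 0, ?_, ?_⟩
    · simp
    · intro N hN
      rw [hK N hN]; simp
  · obtain ⟨δ, C, hδ, hC, hcount⟩ := count_scale hq hqp hpq hS h2
    have hlam : 0 < Real.log S.card := Real.log_pos (by exact_mod_cast (by omega : 1 < S.card))
    obtain ⟨δ', hδ'0, hδ'1, hδ'2⟩ : ∃ δ' : ℝ, 0 < δ' ∧ δ' ≤ δ ∧ δ' ≤ Real.log S.card :=
      ⟨min δ (Real.log S.card), lt_min hδ hlam, min_le_left _ _, min_le_right _ _⟩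
    refine ⟨(Real.log S.card - δ') / Real.log q, 2 / Real.log q + 1 / Real.log 2,
      C * Real.exp (Real.log S.card - δ'), ?_, ?_⟩
    · exact div_lt_div_of_pos_right (by linarith) hL
    · intro N hN
      have hN2 : (2 : ℝ) ≤ N := by exact_mod_cast hN
      have hN0 : (0 : ℝ) < N := by linarith
      have hlN : Real.log 2 ≤ Real.log N := Real.log_le_log (by norm_num) hN2
      obtain ⟨h, hh⟩ : ∃ h : ℕ, h = Nat.clog q N := ⟨_, rfl⟩
      have hNh : N ≤ q ^ h := by rw [hh]; exact Nat.le_pow_clog hq N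
      have hh1 : 1 ≤ h := by
        rw [hh]; exact Nat.clog_pos hq (by omega)
      have hhN : q ^ (h - 1) < N := by
        rw [hh]; exact Nat.pow_pred_clog_lt_self hq (by omega)
      have hhl : Real.log q * ((h : ℝ) - 1) ≤ Real.log N := by
        have h3 : ((q : ℝ) ^ (h - 1)) ≤ N := by exact_mod_cast hhN.le
        have h4 := Real.log_le_log (by positivity) h3
        rw [Real.log_pow, Nat.cast_sub hh1] at h4
        push_cast at h4
        linarith
      have hhl2 : (h : ℝ) - 1 ≤ Real.log N / Real.log q := by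
        rw [le_div_iff₀ hL]; linarith
      have hsub : Set.ncard {x : ℕ | 1 ≤ x ∧ x ≤ N ∧ ∀ n : ℕ,
          (n : ℝ) ≤ (2 / Real.log q + 1 / Real.log 2) * Real.log N → (T p q)^[n] x % q ∈ S} ≤
          Set.ncard {x : ℕ | 1 ≤ x ∧ x ≤ q ^ h ∧ ∀ n < 2 * h, (T p q)^[n] x % q ∈ S} := by
        apply Set.ncard_le_ncard
        · intro x hx
          refine ⟨hx.1, hx.2.1.trans hNh, fun n hn => hx.2.2 n ?_⟩
          have h3 : (n : ℝ) ≤ 2 * h - 1 := by
            have : n + 1 ≤ 2 * h := hn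
            have h4 : (n : ℝ) + 1 ≤ 2 * h := by exact_mod_cast this
            linarith
          have h5 : 1 ≤ Real.log N / Real.log 2 := by rw [le_div_iff₀ hl2]; linarith
          calc (n : ℝ) ≤ 2 * ((h : ℝ) - 1) + 1 := by linarith
            _ ≤ 2 * (Real.log N / Real.log q) + Real.log N / Real.log 2 := by linarith
            _ = _ := by ring
        · exact (Set.finite_Icc 1 (q ^ h)).subset fun x hx => ⟨hx.1, hx.2.1⟩
      calc _ ≤ (Set.ncard {x : ℕ | 1 ≤ x ∧ x ≤ q ^ h ∧ ∀ n < 2 * h, (T p q)^[n] x % q ∈ S} : ℝ) := by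
            exact_mod_cast hsub
        _ ≤ C * Real.exp ((Real.log S.card - δ) * h) := hcount h
        _ ≤ C * Real.exp ((Real.log S.card - δ') + (Real.log S.card - δ') / Real.log q * Real.log N) := by
            refine mul_le_mul_of_nonneg_left (Real.exp_le_exp.2 ?_) hC
            have h3 : (Real.log S.card - δ) * h ≤ (Real.log S.card - δ') * h :=
              mul_le_mul_of_nonneg_right (by linarith) (Nat.cast_nonneg _)
            have h4 : (Real.log S.card - δ') * ((h : ℝ) - 1) ≤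
                (Real.log S.card - δ') * (Real.log N / Real.log q) :=
              mul_le_mul_of_nonneg_left hhl2 (by linarith)
            have h5 : (Real.log S.card - δ') / Real.log q * Real.log N =
                (Real.log S.card - δ') * (Real.log N / Real.log q) := by ring
            rw [h5]
            nlinarith
        _ = C * Real.exp (Real.log S.card - δ') * (N : ℝ) ^ ((Real.log S.card - δ') / Real.log q) := by
            rw [Real.exp_add, Real.rpow_def_of_pos hN0]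
            rw [mul_comm (Real.log (N : ℝ))]
            ring

end Pool.Agent.Lib.MP_b27257_nt.BT
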