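import Mathlib

/-! Survivors of the ceiling map beyond the trivial bound: definitions. -/

namespace Pool.Agent.Lib.MP_b27257_nt.BT

open Finset

/-- The ceiling map `x ↦ ⌈p x / q⌉`. -/
def T (p q x : ℕ) : ℕ := (p * x + q - 1) / q

/-- The digits `a < q` with `q ∣ p s + a` for some `s ∈ S`. -/
def dg (p q : ℕ) (S : Finset ℕ) : Finset ℕ := (range q).filter fun a => ∃ s ∈ S, q ∣ p * s + a

/-- The integer attached to a word: `x ≡ X a` modulo `q^m` when the word of `x` is `a`. -/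
def X (P : ℤ) (q : ℕ) {m : ℕ} (a : Fin m → ℕ) : ℤ := -∑ j : Fin m, (a j : ℤ) * P ^ (j.1 + 1) * (q : ℤ) ^ j.1

/-- Site: the class of `P^i / q^r` modulo one. -/
noncomputable def st (P : ℤ) (q i r : ℕ) : UnitAddCircle :=
  (((P : ℝ) ^ i / (q : ℝ) ^ r : ℝ) : UnitAddCircle)

/-- `e(y) = exp(2 π i y)`. -/
noncomputable def ee (y : ℝ) : ℂ := Complex.exp (2 * Real.pi * Complex.I * y)

/-- Absolute value of the character sum over the digits. -/
noncomputable def gs (A : Finset ℕ) (y : ℝ) : ℝ := ‖∑ a ∈ A, ee (a * y)‖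

open Classical in
/-- White positions `j < ℓ` of the frequency `w` in the segment `[t, t + ℓ)`. -/
noncomputable def wh (P : ℤ) (q m Q t ℓ : ℕ) (w : ℤ) : Finset ℕ :=
  (range ℓ).filter fun j => 1 / (Q : ℝ) < ‖w • st P q (t + j + 1) (m - (t + j))‖

end Pool.Agent.Lib.MP_b27257_nt.BT
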